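import Mathlib

/-!
Rational self-maps of projective space over a field, their iterates and degrees.
-/

set_option autoImplicit false

namespace Pool.Agent.H905R3

open MvPolynomial

/-- A rational self-map of `ℙ^N` over `K`: `N + 1` homogeneous polynomials of one common degree
without a nonconstant common factor. -/
structure RatMap (K : Type*) [Field K] (N : ℕ) where
  /-- the coordinates -/
  poly : Fin (N + 1) → MvPolynomial (Fin (N + 1)) K
  /-- the common degree -/
  degree : ℕ
  homogeneous : ∀ i, (poly i).IsHomogeneous degree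
  reduced : ∀ p : MvPolynomial (Fin (N + 1)) K, (∀ i, p ∣ poly i) → IsUnit p

variable {K : Type*} [Field K] {N : ℕ}

/-- The map is dominant: its coordinates satisfy no nontrivial polynomial relation. -/
def RatMap.Dominant (f : RatMap K N) : Prop := AlgebraicIndependent K f.poly

/-- The `n`-fold composition computed by substitution (common factors are kept). -/
noncomputable def RatMap.subst (f : RatMap K N) : ℕ → Fin (N + 1) → MvPolynomial (Fin (N + 1)) K
  | 0 => X
  | (n + 1) => fun i => bind₁ (f.subst n) (f.poly i)

/-- `g` is the `n`-th iterate of `f`: it is obtained from the `n`-fold substitution by dividing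
out a common factor. -/
def RatMap.IsIterate (f : RatMap K N) (n : ℕ) (g : RatMap K N) : Prop :=
  ∃ c : MvPolynomial (Fin (N + 1)) K, c ≠ 0 ∧ ∀ i, f.subst n i = c * g.poly i

theorem RatMap.exists_ne_zero (g : RatMap K N) : ∃ i, g.poly i ≠ 0 := by
  by_contra h
  push Not at h
  have := g.reduced 0 (fun i => by rw [h i])
  exact not_isUnit_zero this

/-- the degree of a rational map does not depend on the reduced representation -/
theorem RatMap.degree_unique (g g' : RatMap K N) (c c' : MvPolynomial (Fin (N + 1)) K)
    (hc : c ≠ 0) (h : ∀ i, c * g.poly i = c' * g'.poly i) : g.degree = g'.degree := by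
  obtain ⟨a, b, d, hab, ha, hb⟩ := UniqueFactorizationMonoid.exists_reduced_factors c hc c'
  have hd : d ≠ 0 := by
    rintro rfl
    exact hc (by rw [← ha, zero_mul])
  have h1 : ∀ i, a * g.poly i = b * g'.poly i := by
    intro i
    have := h i
    rw [← ha, ← hb, mul_assoc, mul_assoc] at this
    exact mul_left_cancel₀ hd this
  have hbu : IsUnit b := g.reduced b fun i => by
    have : b ∣ a * g.poly i := ⟨_, h1 i⟩
    exact (hab.symm).dvd_of_dvd_mul_left this
  have hau : IsUnit a := g'.reduced a fun i => by
    have : a ∣ b * g'.poly i := ⟨_, (h1 i).symm⟩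
    exact hab.dvd_of_dvd_mul_left this
  obtain ⟨i, hi⟩ := g.exists_ne_zero
  obtain ⟨u, hu, rfl⟩ := MvPolynomial.isUnit_iff_eq_C_of_isReduced.1 hau
  obtain ⟨w, hw, rfl⟩ := MvPolynomial.isUnit_iff_eq_C_of_isReduced.1 hbu
  have e1 : (C u * g.poly i).IsHomogeneous g.degree := by
    simpa using (isHomogeneous_C (Fin (N + 1)) u).mul (g.homogeneous i)
  have e2 : (C u * g.poly i).IsHomogeneous g'.degree := by
    rw [h1 i]
    simpa using (isHomogeneous_C (Fin (N + 1)) w).mul (g'.homogeneous i)
  exact e1.inj_right e2 (mul_ne_zero (by simpa using hu.ne_zero) hi)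

/-- the degree of the `n`-th iterate is well defined -/
theorem RatMap.IsIterate.degree_eq {f g g' : RatMap K N} {n : ℕ}
    (hg : f.IsIterate n g) (hg' : f.IsIterate n g') : g.degree = g'.degree := by
  obtain ⟨c, hc, h⟩ := hg
  obtain ⟨c', _, h'⟩ := hg'
  exact RatMap.degree_unique g g' c c' hc (fun i => by rw [← h i, ← h' i])

/-- evaluating the substitution -/
theorem RatMap.aeval_subst_succ {L : Type*} [CommRing L] [Algebra K L] (f : RatMap K N) (n : ℕ)
    (a : Fin (N + 1) → L) (i : Fin (N + 1)) :
    aeval a (f.subst (n + 1) i) = aeval (fun j => aeval a (f.subst n j)) (f.poly i) := by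
  rw [RatMap.subst, aeval_bind₁]

/-- homogeneous polynomials and scaling -/
theorem aeval_smul_of_isHomogeneous {L : Type*} [CommRing L] [Algebra K L] {m d : ℕ}
    {F : MvPolynomial (Fin m) K} (hF : F.IsHomogeneous d) (c : L) (x : Fin m → L) :
    aeval (fun i => c * x i) F = c ^ d * aeval x F := by
  rw [aeval_def, aeval_def, eval₂_eq', eval₂_eq', Finset.mul_sum]
  refine Finset.sum_congr rfl fun s hs => ?_
  have hdeg : ∑ i, s i = d := by
    have h := hF (MvPolynomial.mem_support_iff.mp hs)
    have h2 : Finsupp.degree s = d := by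
      rw [← h, Finsupp.degree_eq_weight_one]; rfl
    rw [← h2, Finsupp.degree_eq_sum]
  simp only [mul_pow]
  rw [Finset.prod_mul_distrib, Finset.prod_pow_eq_pow_sum, hdeg]
  ring

end Pool.Agent.H905R3
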