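import Mathlib
import Pool.Agent.H905R3.RatMap

/-!
Evaluation of elements of a fraction field at a point, and rational maps with prescribed affine
coordinate functions.
-/

set_option autoImplicit false

namespace Pool.Agent.H905R3.Quartic

open MvPolynomial

section EvTo

variable {R Ω k : Type*} [CommRing R] [IsDomain R] [Field Ω] [Algebra R Ω] [IsFractionRing R Ω]
  [Field k] (ev : R →+* k)

/-- the element `r` of the fraction field is regular at the point `ev` with value `c` -/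
def EvTo (r : Ω) (c : k) : Prop :=
  ∃ p q : R, ev q ≠ 0 ∧ r * algebraMap R Ω q = algebraMap R Ω p ∧ c * ev q = ev p

namespace EvTo

variable {ev} {r s : Ω} {c e : k}

omit [IsDomain R] in
theorem ofRing (p : R) : EvTo ev (algebraMap R Ω p) (ev p) := ⟨p, 1, by simp, by simp, by simp⟩

omit [IsDomain R] [IsFractionRing R Ω] in
theorem add (hr : EvTo ev r c) (hs : EvTo ev s e) : EvTo ev (r + s) (c + e) := by
  obtain ⟨p, q, hq, h1, h2⟩ := hr
  obtain ⟨p', q', hq', h1', h2'⟩ := hs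
  refine ⟨p * q' + p' * q, q * q', ?_, ?_, ?_⟩
  · rw [map_mul]; exact mul_ne_zero hq hq'
  · rw [map_mul, map_add, map_mul, map_mul, ← h1, ← h1']; ring
  · rw [map_mul, map_add, map_mul, map_mul, ← h2, ← h2']; ring

omit [IsDomain R] [IsFractionRing R Ω] in
theorem mul (hr : EvTo ev r c) (hs : EvTo ev s e) : EvTo ev (r * s) (c * e) := by
  obtain ⟨p, q, hq, h1, h2⟩ := hr
  obtain ⟨p', q', hq', h1', h2'⟩ := hs
  refine ⟨p * p', q * q', ?_, ?_, ?_⟩
  · rw [map_mul]; exact mul_ne_zero hq hq'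
  · rw [map_mul, map_mul, ← h1, ← h1']; ring
  · rw [map_mul, map_mul, ← h2, ← h2']; ring

omit [IsDomain R] [IsFractionRing R Ω] in
theorem neg (hr : EvTo ev r c) : EvTo ev (-r) (-c) := by
  obtain ⟨p, q, hq, h1, h2⟩ := hr
  refine ⟨-p, q, hq, ?_, ?_⟩
  · rw [map_neg, ← h1]; ring
  · rw [map_neg, ← h2]; ring

omit [IsDomain R] [IsFractionRing R Ω] in
theorem sub (hr : EvTo ev r c) (hs : EvTo ev s e) : EvTo ev (r - s) (c - e) := by
  rw [sub_eq_add_neg, sub_eq_add_neg]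
  exact hr.add hs.neg

omit [IsDomain R] in
theorem one : EvTo ev (1 : Ω) 1 := by
  have := ofRing (ev := ev) (Ω := Ω) 1
  rwa [map_one, map_one] at this

omit [IsDomain R] in
theorem natCast (n : ℕ) : EvTo ev (n : Ω) (n : k) := by
  have := ofRing (ev := ev) (Ω := Ω) (n : R)
  rwa [map_natCast, map_natCast] at this

theorem ne_zero (hr : EvTo ev r c) (hc : c ≠ 0) : r ≠ 0 := by
  obtain ⟨p, q, hq, h1, h2⟩ := hr
  rintro rfl
  rw [zero_mul] at h1
  have hp : p = 0 := IsFractionRing.injective R Ω (by rw [← h1, map_zero])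
  rw [hp, map_zero] at h2
  exact mul_ne_zero hc hq h2

theorem inv (hr : EvTo ev r c) (hc : c ≠ 0) : EvTo ev r⁻¹ c⁻¹ := by
  have hr0 := hr.ne_zero hc
  obtain ⟨p, q, hq, h1, h2⟩ := hr
  have hp : ev p ≠ 0 := by rw [← h2]; exact mul_ne_zero hc hq
  refine ⟨q, p, hp, ?_, ?_⟩
  · rw [← h1, inv_mul_cancel_left₀ hr0]
  · rw [← h2, inv_mul_cancel_left₀ hc]

theorem div (hr : EvTo ev r c) (hs : EvTo ev s e) (he : e ≠ 0) : EvTo ev (r / s) (c / e) := by
  rw [div_eq_mul_inv, div_eq_mul_inv]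
  exact hr.mul (hs.inv he)

omit [IsDomain R] in
theorem pow (hr : EvTo ev r c) (n : ℕ) : EvTo ev (r ^ n) (c ^ n) := by
  induction n with
  | zero => simpa using one (ev := ev) (Ω := Ω)
  | succ n ih => rw [pow_succ, pow_succ]; exact ih.mul hr

end EvTo

end EvTo

/-! ### the map -/

section Formulas

variable {L : Type*} [Field L]

/-- auxiliary function -/
def rA (s t m : L) : L := ((1 - t ^ 3) - m * (1 - s ^ 3)) / (m * (1 - m))
/-- first coordinate of the map -/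
def rs (s t m : L) : L := rA s t m / (1 - s) ^ 2 - s - 1
/-- second coordinate of the map -/
def rt (s t m : L) : L := (1 - m) ^ 2 * rA s t m / (t - s) ^ 2 - s - t
/-- the denominator of the third coordinate -/
def rden (s t m : L) : L := (1 - s ^ 3) + rA s t m * (rs s t m - s) / (1 - s)
/-- third coordinate of the map -/
def rm (s t m : L) : L :=
  ((1 - s ^ 3) + (1 - m) * rA s t m * (rt s t m - s) / (t - s)) / rden s t m

/-- the denominators do not vanish -/
structure Good (s t m : L) : Prop where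
  m0 : m ≠ 0
  m1 : 1 - m ≠ 0
  s1 : 1 - s ≠ 0
  ts : t - s ≠ 0
  den : rden s t m ≠ 0

/-- the map on triples -/
def rr (a : Fin 3 → L) : Fin 3 → L := ![rs (a 0) (a 1) (a 2), rt (a 0) (a 1) (a 2), rm (a 0) (a 1) (a 2)]

/-- the denominators do not vanish -/
def GoodPt (a : Fin 3 → L) : Prop := Good (a 0) (a 1) (a 2)

end Formulas

section EvFormulas

variable {R Ω k : Type*} [CommRing R] [IsDomain R] [Field Ω] [Algebra R Ω] [IsFractionRing R Ω]
  [Field k] {ev : R →+* k} {s t m : Ω} {σ θ μ : k}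

theorem EvTo.rA (hs : EvTo ev s σ) (ht : EvTo ev t θ) (hm : EvTo ev m μ) (h0 : μ ≠ 0)
    (h1 : 1 - μ ≠ 0) : EvTo ev (rA s t m) (rA σ θ μ) :=
  ((EvTo.one.sub (ht.pow 3)).sub (hm.mul (EvTo.one.sub (hs.pow 3)))).div
    (hm.mul (EvTo.one.sub hm)) (mul_ne_zero h0 h1)

theorem EvTo.rs (hs : EvTo ev s σ) (ht : EvTo ev t θ) (hm : EvTo ev m μ) (h : Good σ θ μ) :
    EvTo ev (rs s t m) (rs σ θ μ) :=
  (((EvTo.rA hs ht hm h.m0 h.m1).div ((EvTo.one.sub hs).pow 2) (pow_ne_zero _ h.s1)).sub hs).sub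
    EvTo.one

theorem EvTo.rt (hs : EvTo ev s σ) (ht : EvTo ev t θ) (hm : EvTo ev m μ) (h : Good σ θ μ) :
    EvTo ev (rt s t m) (rt σ θ μ) :=
  (((((EvTo.one.sub hm).pow 2).mul (EvTo.rA hs ht hm h.m0 h.m1)).div ((ht.sub hs).pow 2)
    (pow_ne_zero _ h.ts)).sub hs).sub ht

theorem EvTo.rden (hs : EvTo ev s σ) (ht : EvTo ev t θ) (hm : EvTo ev m μ) (h : Good σ θ μ) :
    EvTo ev (rden s t m) (rden σ θ μ) :=
  (EvTo.one.sub (hs.pow 3)).add (((EvTo.rA hs ht hm h.m0 h.m1).mul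
    ((EvTo.rs hs ht hm h).sub hs)).div (EvTo.one.sub hs) h.s1)

theorem EvTo.rm (hs : EvTo ev s σ) (ht : EvTo ev t θ) (hm : EvTo ev m μ) (h : Good σ θ μ) :
    EvTo ev (rm s t m) (rm σ θ μ) :=
  ((EvTo.one.sub (hs.pow 3)).add ((((EvTo.one.sub hm).mul (EvTo.rA hs ht hm h.m0 h.m1)).mul
    ((EvTo.rt hs ht hm h).sub hs)).div (ht.sub hs) h.ts)).div (EvTo.rden hs ht hm h) h.den

theorem EvTo.rr {a : Fin 3 → Ω} {b : Fin 3 → k} (h : ∀ i, EvTo ev (a i) (b i)) (hb : GoodPt b)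
    (i : Fin 3) : EvTo ev (rr a i) (rr b i) := by
  fin_cases i
  · exact EvTo.rs (h 0) (h 1) (h 2) hb
  · exact EvTo.rt (h 0) (h 1) (h 2) hb
  · exact EvTo.rm (h 0) (h 1) (h 2) hb

/-- good points specialise to good points only from good points -/
theorem GoodPt.of_ev {a : Fin 3 → Ω} {b : Fin 3 → k} (h : ∀ i, EvTo ev (a i) (b i))
    (hb : GoodPt b) : GoodPt a where
  m0 := (h 2).ne_zero hb.m0
  m1 := (EvTo.one.sub (h 2)).ne_zero hb.m1
  s1 := (EvTo.one.sub (h 0)).ne_zero hb.s1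
  ts := ((h 1).sub (h 0)).ne_zero hb.ts
  den := (EvTo.rden (h 0) (h 1) (h 2) hb).ne_zero hb.den

end EvFormulas

end Pool.Agent.H905R3.Quartic
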