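import Mathlib
import Pool.Agent.H905R3.RatMap

/-!
Dynamical degrees of dominant rational self-maps of the projective plane.
-/

set_option autoImplicit false

namespace Pool.Agent.H905R3

open MvPolynomial

/-- The function field `K(x_1, …, x_N)` of `ℙ^N`, with `x_i = X_i / X_0`. -/
abbrev FunField (K : Type*) [Field K] (N : ℕ) : Type _ := FractionRing (MvPolynomial (Fin N) K)

variable {K : Type*} [Field K] {N : ℕ}

/-- The `i`-th coordinate of a rational map in the affine chart `X_0 = 1`, as an element of the
function field. -/
noncomputable def RatMap.coord (g : RatMap K N) (i : Fin (N + 1)) : FunField K N :=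
  algebraMap (MvPolynomial (Fin N) K) (FunField K N)
    (aeval (Fin.cons 1 X : Fin (N + 1) → MvPolynomial (Fin N) K) (g.poly i))

/-- The subfield `g^* K(ℙ^N)` of the function field `K(ℙ^N)`: it is generated by the quotients
`g_i / g_j`. -/
noncomputable def RatMap.pullbackField (g : RatMap K N) : IntermediateField K (FunField K N) :=
  IntermediateField.adjoin K {x | ∃ i j, x = g.coord i / g.coord j}

/-- The topological degree of a dominant rational self-map `g` of `ℙ^N`, i.e. the degree
`[K(ℙ^N) : g^* K(ℙ^N)]` of the extension of function fields. -/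
noncomputable def RatMap.topDegree (g : RatMap K N) : ℕ :=
  Module.finrank g.pullbackField (FunField K N)

/-- The degrees `deg_i g = ((π₂^*L)^i · (π₁^*L)^(2-i))` (intersection numbers on the graph of `g`)
of a dominant rational self-map `g` of `ℙ²` with respect to `L = O(1)`: `deg_0 g = 1`, `deg_1 g` is
the common degree of the coordinates and `deg_2 g` is the topological degree. -/
noncomputable def RatMap.deg (g : RatMap K 2) : Fin 3 → ℕ := ![1, g.degree, g.topDegree]

/-- `l` is the `i`-th dynamical degree `λ_i(f) = lim (deg_i (f^n))^(1/n)` of the dominant rational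
self-map `f` of `ℙ²`. -/
def RatMap.IsDynamicalDegree (f : RatMap K 2) (i : Fin 3) (l : ℝ) : Prop :=
  ∃ g : ℕ → RatMap K 2, (∀ n, f.IsIterate n (g n)) ∧
    Filter.Tendsto (fun n : ℕ => (((g n).deg i : ℕ) : ℝ) ^ ((1 : ℝ) / n)) Filter.atTop (nhds l)

end Pool.Agent.H905R3
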