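import Mathlib
import Pool.Agent.H905R3.Ev
import Pool.Agent.H905R3.GapDefs

/-!
Rational maps with prescribed affine coordinate functions.
(The factor and homogenization lemmas follow the library file `Pool.Agent.Helper259.RatMaps`.)
-/

set_option autoImplicit false

namespace Pool.Agent.H905R3.Quartic

open MvPolynomial

/-! ### factors of homogeneous polynomials -/

section Factor

variable {σ K : Type*} [Field K]

/-- `X i ↦ t X i` -/
noncomputable def Φ (σ K : Type*) [Field K] : MvPolynomial σ K →ₐ[K] Polynomial (MvPolynomial σ K) :=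
  aeval fun i => Polynomial.C (X i) * Polynomial.X

theorem Φ_monomial (c : σ →₀ ℕ) (a : K) :
    Φ σ K (monomial c a) = Polynomial.C (monomial c a) * Polynomial.X ^ c.degree := by
  rw [Φ, aeval_monomial, monomial_eq, Finsupp.prod, Finsupp.prod, map_mul, map_prod]
  simp only [mul_pow, map_pow]
  rw [Finset.prod_mul_distrib, Finset.prod_pow_eq_pow_sum, Finsupp.degree_apply, ← mul_assoc]
  rfl

theorem Φ_coeff (p : MvPolynomial σ K) (j : ℕ) :
    (Φ σ K p).coeff j = homogeneousComponent j p := by
  induction p using MvPolynomial.induction_on' with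
  | monomial c a =>
    rw [Φ_monomial, Polynomial.coeff_C_mul_X_pow]
    rw [homogeneousComponent_of_mem (isHomogeneous_monomial a rfl)]
  | add p q hp hq => rw [map_add, Polynomial.coeff_add, hp, hq, map_add]

theorem Φ_homog {p : MvPolynomial σ K} {e : ℕ} (hp : p.IsHomogeneous e) :
    Φ σ K p = Polynomial.C p * Polynomial.X ^ e := by
  ext1 j
  rw [Φ_coeff, Polynomial.coeff_C_mul_X_pow, homogeneousComponent_of_mem hp]

theorem Φ_ne_zero {p : MvPolynomial σ K} (hp : p ≠ 0) : Φ σ K p ≠ 0 := by
  intro h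
  apply hp
  rw [← sum_homogeneousComponent p]
  apply Finset.sum_eq_zero
  intro j _
  rw [← Φ_coeff, h, Polynomial.coeff_zero]

/-- a factor of a nonzero homogeneous polynomial is homogeneous -/
theorem homog_of_mul {p q : MvPolynomial σ K} {D : ℕ} (h : (p * q).IsHomogeneous D)
    (h0 : p * q ≠ 0) : ∃ e, p.IsHomogeneous e ∧ q.IsHomogeneous (D - e) ∧ e ≤ D := by
  have hp0 : p ≠ 0 := left_ne_zero_of_mul h0
  have hq0 : q ≠ 0 := right_ne_zero_of_mul h0
  have hP := Φ_ne_zero hp0
  have hQ := Φ_ne_zero hq0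
  have h1 : Φ σ K p * Φ σ K q = Polynomial.C (p * q) * Polynomial.X ^ D := by
    rw [← map_mul, Φ_homog h]
  have hdeg : (Φ σ K p).natDegree + (Φ σ K q).natDegree = D := by
    rw [← Polynomial.natDegree_mul hP hQ, h1, Polynomial.natDegree_C_mul_X_pow _ _ h0]
  have htr : (Φ σ K p).natTrailingDegree + (Φ σ K q).natTrailingDegree = D := by
    rw [← Polynomial.natTrailingDegree_mul hP hQ, h1, Polynomial.C_mul_X_pow_eq_monomial,
      Polynomial.natTrailingDegree_monomial h0]
  have hle1 := Polynomial.natTrailingDegree_le_natDegree (Φ σ K p)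
  have hle2 := Polynomial.natTrailingDegree_le_natDegree (Φ σ K q)
  have key : ∀ r : MvPolynomial σ K, (Φ σ K r).natTrailingDegree = (Φ σ K r).natDegree →
      r.IsHomogeneous (Φ σ K r).natDegree := by
    intro r hr c hc
    have h2 : (Φ σ K r).coeff c.degree ≠ 0 := by
      rw [Φ_coeff]
      intro h
      have h5 := congrArg (coeff c) h
      rw [coeff_homogeneousComponent, if_pos rfl, coeff_zero] at h5
      exact hc h5
    have h3 := Polynomial.natTrailingDegree_le_of_ne_zero h2
    have h4 := Polynomial.le_natDegree_of_ne_zero h2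
    have h5 : Finsupp.weight 1 c = c.degree := by rw [Finsupp.degree_eq_weight_one]; rfl
    rw [h5]
    omega
  refine ⟨(Φ σ K p).natDegree, key p (by omega), ?_, by omega⟩
  have := key q (by omega)
  rwa [show (Φ σ K q).natDegree = D - (Φ σ K p).natDegree by omega] at this

end Factor

/-! ### homogenization -/

section Hom

variable {K : Type*} [Field K] {m : ℕ}

/-- the point `[1 : a]` -/
def aff {L : Type*} [One L] (a : Fin m → L) : Fin (m + 1) → L := Fin.cons 1 a

/-- homogenization -/
noncomputable def hom (D : ℕ) (p : MvPolynomial (Fin m) K) :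
    MvPolynomial (Fin (m + 1)) K :=
  ∑ c ∈ p.support, monomial (Finsupp.cons (D - c.degree) c) (coeff c p)

theorem hom_homog {D : ℕ} {p : MvPolynomial (Fin m) K} (hD : p.totalDegree ≤ D) :
    (hom D p).IsHomogeneous D := by
  refine IsHomogeneous.sum _ _ _ fun c hc => isHomogeneous_monomial _ ?_
  have h1 : c.degree ≤ D := by
    refine le_trans ?_ hD
    have := le_totalDegree hc
    rwa [Finsupp.sum_fintype _ _ (by simp), ← Finsupp.degree_eq_sum] at this
  rw [Finsupp.degree_eq_sum, Fin.sum_univ_succ]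
  simp only [Finsupp.cons_zero, Finsupp.cons_succ]
  rw [← Finsupp.degree_eq_sum]
  omega

theorem aeval_hom {L : Type*} [CommRing L] [Algebra K L] (D : ℕ) (p : MvPolynomial (Fin m) K)
    (a : Fin m → L) : aeval (aff a) (hom D p) = aeval a p := by
  rw [hom, map_sum, aeval_def a, eval₂_eq']
  refine Finset.sum_congr rfl fun c _ => ?_
  rw [aeval_monomial, Finsupp.prod_fintype _ _ (by simp), Fin.prod_univ_succ]
  simp [aff]

/-- dehomogenization is injective on homogeneous polynomials -/
theorem deh_inj {F : MvPolynomial (Fin (m + 1)) K} {d : ℕ} (hF : F.IsHomogeneous d)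
    (h : aeval (aff (X : Fin m → MvPolynomial (Fin m) K)) F = 0) : F = 0 := by
  -- evaluate at the generic point `X 0 * (1, X i / X 0)`
  let Q := FractionRing (MvPolynomial (Fin (m + 1)) K)
  have hinj : Function.Injective (algebraMap (MvPolynomial (Fin (m + 1)) K) Q) :=
    IsFractionRing.injective _ _
  have hx0 : algebraMap (MvPolynomial (Fin (m + 1)) K) Q (X 0) ≠ 0 := by
    intro h
    exact X_ne_zero (R := K) (0 : Fin (m + 1)) (hinj (by rw [h, map_zero]))
  let b : Fin m → Q := fun i => algebraMap (MvPolynomial (Fin (m + 1)) K) Q (X i.succ) /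
    algebraMap (MvPolynomial (Fin (m + 1)) K) Q (X 0)
  have h1 : aeval (aff b) F = 0 := by
    have h2 : aeval b (aeval (aff (X : Fin m → MvPolynomial (Fin m) K)) F) = 0 := by
      rw [h, map_zero]
    rw [← h2, comp_aeval_apply]
    congr 1
    congr 1
    funext i
    refine Fin.cases ?_ (fun j => ?_) i <;> simp [aff]
  have h3 : (fun i => algebraMap (MvPolynomial (Fin (m + 1)) K) Q (X i)) =
      fun i => algebraMap (MvPolynomial (Fin (m + 1)) K) Q (X 0) * aff b i := by
    funext i
    refine Fin.cases ?_ (fun j => ?_) i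
    · simp [aff]
    · simp only [aff, Fin.cons_succ, b]
      rw [mul_div_cancel₀ _ hx0]
  have h4 : aeval (fun i => algebraMap (MvPolynomial (Fin (m + 1)) K) Q (X i)) F = 0 := by
    rw [h3, aeval_smul_of_isHomogeneous hF, h1, mul_zero]
  have h5 : aeval (fun i => algebraMap (MvPolynomial (Fin (m + 1)) K) Q (X i)) F =
      algebraMap (MvPolynomial (Fin (m + 1)) K) Q F := by
    have : (aeval (fun i => algebraMap (MvPolynomial (Fin (m + 1)) K) Q (X i)) :
        MvPolynomial (Fin (m + 1)) K →ₐ[K] Q) =
        IsScalarTower.toAlgHom K (MvPolynomial (Fin (m + 1)) K) Q := by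
      apply MvPolynomial.algHom_ext
      intro i
      simp
    rw [this]
    rfl
  rw [h5] at h4
  exact hinj (by rw [h4, map_zero])

/-- the value of the dehomogenization in the function field -/
noncomputable def dehF (F : MvPolynomial (Fin (m + 1)) K) : FunField K m :=
  algebraMap (MvPolynomial (Fin m) K) (FunField K m)
    (aeval (aff (X : Fin m → MvPolynomial (Fin m) K)) F)

theorem dehF_hom (D : ℕ) (p : MvPolynomial (Fin m) K) :
    dehF (hom D p) = algebraMap (MvPolynomial (Fin m) K) (FunField K m) p := by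
  rw [dehF, aeval_hom]
  simp

theorem dehF_inj {F G : MvPolynomial (Fin (m + 1)) K} {d : ℕ} (hF : F.IsHomogeneous d)
    (hG : G.IsHomogeneous d) (h : dehF F = dehF G) : F = G := by
  rw [← sub_eq_zero]
  apply deh_inj (hF.sub hG)
  have h1 := IsFractionRing.injective (MvPolynomial (Fin m) K) (FunField K m) h
  rw [map_sub, h1, sub_self]

/-- **Existence of rational maps** with prescribed affine coordinate functions. -/
theorem exists_ratMap (r : Fin m → FunField K m) (D : ℕ) (b : MvPolynomial (Fin m) K)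
    (p : Fin m → MvPolynomial (Fin m) K) (hb0 : b ≠ 0)
    (hp : ∀ i, r i * algebraMap _ (FunField K m) b = algebraMap _ (FunField K m) (p i))
    (hbD : b.totalDegree ≤ D) (hpD : ∀ i, (p i).totalDegree ≤ D) :
    ∃ g : RatMap K m, g.degree ≤ D ∧
      ∀ (D' : ℕ) (F' : Fin (m + 1) → MvPolynomial (Fin (m + 1)) K) (c : FunField K m),
        (∀ i, (F' i).IsHomogeneous D') → (∀ i, dehF (F' i) = c * aff r i) →
        ∃ H, ∀ i, F' i = H * g.poly i := by
  classical
  let bp : Fin (m + 1) → MvPolynomial (Fin m) K := Fin.cons b p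
  let F : Fin (m + 1) → MvPolynomial (Fin (m + 1)) K := fun i => hom D (bp i)
  have hbpD : ∀ i, (bp i).totalDegree ≤ D := by
    intro i
    refine Fin.cases ?_ (fun j => ?_) i
    · exact hbD
    · exact hpD j
  have hFhom : ∀ i, (F i).IsHomogeneous D := fun i => hom_homog (hbpD i)
  have hF0 : F 0 ≠ 0 := by
    intro h
    apply hb0
    have h1 := dehF_hom D b
    rw [show hom D b = F 0 from rfl, h, dehF, map_zero, map_zero] at h1
    exact (IsFractionRing.injective (MvPolynomial (Fin m) K) (FunField K m)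
      (by rw [map_zero]; exact h1)).symm
  let _ : NormalizedGCDMonoid (MvPolynomial (Fin (m + 1)) K) := Classical.arbitrary _
  obtain ⟨g, hg, hg1⟩ := Finset.extract_gcd F (s := Finset.univ) ⟨0, Finset.mem_univ _⟩
  set G := Finset.univ.gcd F with hG
  have hG0 : G ≠ 0 := by
    intro h
    apply hF0
    rw [hg 0 (Finset.mem_univ _), h, zero_mul]
  have hg0 : g 0 ≠ 0 := by
    intro h
    apply hF0
    rw [hg 0 (Finset.mem_univ _), h, mul_zero]
  obtain ⟨e, hGe, hg0e, heD⟩ : ∃ e, G.IsHomogeneous e ∧ (g 0).IsHomogeneous (D - e) ∧ e ≤ D :=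
    homog_of_mul (by rw [← hg 0 (Finset.mem_univ _)]; exact hFhom 0)
      (by rw [← hg 0 (Finset.mem_univ _)]; exact hF0)
  have hghom : ∀ i, (g i).IsHomogeneous (D - e) := by
    intro i
    by_cases hi : g i = 0
    · rw [hi]; exact isHomogeneous_zero _ _ _
    · obtain ⟨e', h1, h2, -⟩ := homog_of_mul (p := G) (q := g i) (D := D)
        (by rw [← hg i (Finset.mem_univ _)]; exact hFhom i) (mul_ne_zero hG0 hi)
      rwa [h1.inj_right hGe hG0] at h2
  have hcop : ∀ H : MvPolynomial (Fin (m + 1)) K, (∀ i, H ∣ g i) → IsUnit H := by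
    intro H hH
    apply isUnit_of_dvd_one
    rw [← hg1]
    exact Finset.dvd_gcd fun i _ => hH i
  refine ⟨⟨g, D - e, hghom, hcop⟩, Nat.sub_le _ _, fun D' F' c hF'hom hF' => ?_⟩
  have hbpr : ∀ i, dehF (F i) = aff r i * algebraMap _ (FunField K m) b := by
    intro i
    change dehF (hom D (bp i)) = _
    rw [dehF_hom]
    refine Fin.cases ?_ (fun j => ?_) i
    · simp [bp, aff]
    · simp [bp, hp, aff]
  have hmul : ∀ P Q : MvPolynomial (Fin (m + 1)) K, dehF (P * Q) = dehF P * dehF Q := by
    intro P Q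
    rw [dehF, map_mul, map_mul]
    rfl
  have hcross : ∀ i j, F' i * F j = F' j * F i := by
    intro i j
    apply dehF_inj ((hF'hom i).mul (hFhom j)) ((hF'hom j).mul (hFhom i))
    rw [hmul, hmul, hF', hF', hbpr, hbpr]
    ring
  have hcrossg : ∀ i j, F' i * g j = F' j * g i := by
    intro i j
    have h3 := hcross i j
    rw [hg i (Finset.mem_univ _), hg j (Finset.mem_univ _)] at h3
    apply mul_left_cancel₀ hG0
    calc G * (F' i * g j) = F' i * (G * g j) := by ring
      _ = F' j * (G * g i) := h3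
      _ = G * (F' j * g i) := by ring
  have hdvd : g 0 ∣ F' 0 := by
    have h3 : g 0 ∣ Finset.univ.gcd fun j => F' 0 * g j :=
      Finset.dvd_gcd fun j _ => ⟨F' j, by rw [hcrossg 0 j]; ring⟩
    have h4 := Finset.gcd_mul_left' Finset.univ g (F' 0)
    rw [hg1, mul_one] at h4
    exact h3.trans h4.dvd
  obtain ⟨H, hH⟩ := hdvd
  refine ⟨H, fun j => ?_⟩
  apply mul_right_cancel₀ hg0
  change F' j * g 0 = H * g j * g 0
  rw [← hcrossg 0 j, hH]
  ring

end Hom

end Pool.Agent.H905R3.Quartic
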