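import Mathlib
import Pool.Agent.H905R3.RatExist

set_option autoImplicit false

namespace Pool.Agent.H905R3.Quartic

open MvPolynomial

universe u

section Eval

variable {K : Type u} [Field K] {m : ℕ}

/-- `g` represents the rational map with affine coordinate functions `r` -/
def Represents (g : RatMap K m) (r : Fin m → FunField K m) : Prop :=
  ∀ (D' : ℕ) (F' : Fin (m + 1) → MvPolynomial (Fin (m + 1)) K) (c : FunField K m),
        (∀ i, (F' i).IsHomogeneous D') → (∀ i, dehF (F' i) = c * aff r i) →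
        ∃ H, ∀ i, F' i = H * g.poly i

theorem Represents.eval {g : RatMap K m} {r : Fin m → FunField K m} (hg : Represents g r)
    {L : Type*} [Field L] [Algebra K L] {a b : Fin m → L}
    (h : ∀ i, EvTo (aeval a : MvPolynomial (Fin m) K →ₐ[K] L).toRingHom (r i) (b i)) :
    ∃ c : L, c ≠ 0 ∧ ∀ i, aeval (aff a) (g.poly i) = c * aff b i := by
  classical
  choose p' q' hq' h1 h2 using h
  set Q : MvPolynomial (Fin m) K := ∏ i, q' i with hQ
  let P : Fin m → MvPolynomial (Fin m) K := fun i => p' i * ∏ j ∈ Finset.univ.erase i, q' j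
  have hQi : ∀ i, Q = q' i * ∏ j ∈ Finset.univ.erase i, q' j := fun i =>
    (Finset.mul_prod_erase _ _ (Finset.mem_univ i)).symm
  have hQa : aeval a Q ≠ 0 := by
    rw [hQ, map_prod]
    exact Finset.prod_ne_zero_iff.mpr fun i _ => hq' i
  have hP1 : ∀ i, r i * algebraMap _ (FunField K m) Q = algebraMap _ (FunField K m) (P i) := by
    intro i
    rw [hQi i, map_mul, ← mul_assoc, h1 i, ← map_mul]
  have hP2 : ∀ i, b i * aeval a Q = aeval a (P i) := by
    intro i
    have h3 : b i * aeval a (q' i) = aeval a (p' i) := h2 i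
    rw [hQi i, map_mul, ← mul_assoc, h3, ← map_mul]
  set D' := max Q.totalDegree (Finset.univ.sup fun i => (P i).totalDegree) with hD'
  let bp' : Fin (m + 1) → MvPolynomial (Fin m) K := Fin.cons Q P
  have hbpD' : ∀ i, (bp' i).totalDegree ≤ D' := by
    intro i
    refine Fin.cases ?_ (fun j => ?_) i
    · exact le_max_left _ _
    · exact (Finset.le_sup (f := fun i => (P i).totalDegree) (Finset.mem_univ j)).trans
        (le_max_right _ _)
  obtain ⟨H, hH⟩ := hg D' (fun i => hom D' (bp' i)) (algebraMap _ (FunField K m) Q)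
    (fun i => hom_homog (hbpD' i)) (fun i => by
      rw [dehF_hom]
      refine Fin.cases ?_ (fun j => ?_) i
      · simp [bp', aff]
      · simp [bp', ← hP1, aff, mul_comm])
  have hev : ∀ j, aeval a (bp' j) = aeval (aff a) H * aeval (aff a) (g.poly j) := by
    intro j
    rw [← map_mul, ← hH j, aeval_hom]
  have hev0 : aeval (aff a) H * aeval (aff a) (g.poly 0) = aeval a Q := (hev 0).symm
  have hHa : aeval (aff a) H ≠ 0 := by
    intro h; rw [h, zero_mul] at hev0; exact hQa hev0.symm
  have hga : aeval (aff a) (g.poly 0) ≠ 0 := by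
    intro h; rw [h, mul_zero] at hev0; exact hQa hev0.symm
  refine ⟨aeval (aff a) (g.poly 0), hga, fun i => ?_⟩
  refine Fin.cases ?_ (fun j => ?_) i
  · simp [aff]
  · apply mul_left_cancel₀ hHa
    rw [← hev j.succ]
    change aeval a (P j) = _
    rw [← hP2, ← hev0]
    simp only [aff, Fin.cons_succ]
    ring

/-- `c` is of degree at most `D` -/
def HB (r : FunField K m) (D : ℕ) : Prop :=
  ∃ p q : MvPolynomial (Fin m) K, q ≠ 0 ∧
    r * algebraMap _ (FunField K m) q = algebraMap _ (FunField K m) p ∧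
    p.totalDegree ≤ D ∧ q.totalDegree ≤ D

theorem exists_HB (r : FunField K m) : ∃ D, HB r D := by
  obtain ⟨p, q, hq, rfl⟩ := IsFractionRing.div_surjective (A := MvPolynomial (Fin m) K) r
  have hq0 : q ≠ 0 := nonZeroDivisors.ne_zero hq
  have hq1 : algebraMap (MvPolynomial (Fin m) K) (FunField K m) q ≠ 0 := by
    intro h
    exact hq0 (IsFractionRing.injective _ (FunField K m) (by rw [h, map_zero]))
  exact ⟨max p.totalDegree q.totalDegree, p, q, hq0, div_mul_cancel₀ _ hq1, le_max_left _ _,
    le_max_right _ _⟩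

theorem exists_represents (r : Fin m → FunField K m) (D : ℕ) (h : ∀ i, HB (r i) D) :
    ∃ g : RatMap K m, g.degree ≤ m * D ∧ Represents g r := by
  classical
  choose p' q' hq' h1 h2 h3 using h
  set Q : MvPolynomial (Fin m) K := ∏ i, q' i with hQ
  let P : Fin m → MvPolynomial (Fin m) K := fun i => p' i * ∏ j ∈ Finset.univ.erase i, q' j
  have hQi : ∀ i, Q = q' i * ∏ j ∈ Finset.univ.erase i, q' j := fun i =>
    (Finset.mul_prod_erase _ _ (Finset.mem_univ i)).symm
  have hQ0 : Q ≠ 0 := Finset.prod_ne_zero_iff.mpr fun i _ => hq' i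
  have hP1 : ∀ i, r i * algebraMap _ (FunField K m) Q = algebraMap _ (FunField K m) (P i) := by
    intro i
    rw [hQi i, map_mul, ← mul_assoc, h1 i, ← map_mul]
  have hQD : Q.totalDegree ≤ m * D := by
    refine (totalDegree_finsetProd _ _).trans ?_
    refine (Finset.sum_le_sum fun i _ => h3 i).trans ?_
    simp
  have hPD : ∀ i, (P i).totalDegree ≤ m * D := by
    intro i
    refine (totalDegree_mul _ _).trans ?_
    have e1 : (∏ j ∈ Finset.univ.erase i, q' j).totalDegree ≤ (m - 1) * D := by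
      refine (totalDegree_finsetProd _ _).trans ?_
      refine (Finset.sum_le_sum fun i _ => h3 i).trans ?_
      simp
    have hm : 0 < m := Fin.pos i
    calc (p' i).totalDegree + (∏ j ∈ Finset.univ.erase i, q' j).totalDegree
        ≤ D + (m - 1) * D := add_le_add (h2 i) e1
      _ = m * D := by
        obtain ⟨k, rfl⟩ : ∃ k, m = k + 1 := ⟨m - 1, by omega⟩
        simp
        ring
  exact exists_ratMap r (m * D) Q P hQ0 hP1 hQD hPD

end Eval

section Iterate

variable {K : Type u} [Field K]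

/-- the generic point -/
noncomputable def gen : Fin 3 → FunField K 3 := fun i => algebraMap (MvPolynomial (Fin 3) K) _ (X i)

theorem gen_ev {L : Type*} [Field L] [Algebra K L] (a : Fin 3 → L) (i : Fin 3) :
    EvTo (aeval a : MvPolynomial (Fin 3) K →ₐ[K] L).toRingHom (gen (K := K) i) (a i) := by
  have := EvTo.ofRing (ev := (aeval a : MvPolynomial (Fin 3) K →ₐ[K] L).toRingHom)
    (Ω := FunField K 3) (X i)
  simpa [gen] using this

theorem rr_ev {L : Type*} [Field L] [Algebra K L] {a : Fin 3 → L} (ha : GoodPt a) (i : Fin 3) :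
    EvTo (aeval a : MvPolynomial (Fin 3) K →ₐ[K] L).toRingHom (rr (gen (K := K)) i) (rr a i) :=
  EvTo.rr (gen_ev a) ha i

theorem exists_f : ∃ f : RatMap K 3, Represents f (rr (gen (K := K))) := by
  obtain ⟨D0, h0⟩ := exists_HB (rr (gen (K := K)) 0)
  obtain ⟨D1, h1⟩ := exists_HB (rr (gen (K := K)) 1)
  obtain ⟨D2, h2⟩ := exists_HB (rr (gen (K := K)) 2)
  have mono : ∀ {r : FunField K 3} {D E : ℕ}, HB r D → D ≤ E → HB r E := by
    rintro r D E ⟨p, q, a, b, c, d⟩ hDE
    exact ⟨p, q, a, b, c.trans hDE, d.trans hDE⟩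
  obtain ⟨g, -, hg⟩ := exists_represents (rr (gen (K := K))) (D0 + D1 + D2) (fun i => by
    fin_cases i
    · exact mono h0 (by omega)
    · exact mono h1 (by omega)
    · exact mono h2 (by omega))
  exact ⟨g, hg⟩

/-- evaluation of the substitutions along an orbit -/
theorem subst_eval {f : RatMap K 3} (hf : Represents f (rr (gen (K := K))))
    {L : Type*} [Field L] [Algebra K L] (a : ℕ → Fin 3 → L) (hgood : ∀ n, GoodPt (a n))
    (hstep : ∀ n, a (n + 1) = rr (a n)) (n : ℕ) :
    ∃ c : L, c ≠ 0 ∧ ∀ i, aeval (aff (a 0)) (f.subst n i) = c * aff (a n) i := by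
  induction n with
  | zero =>
    refine ⟨1, one_ne_zero, fun i => ?_⟩
    rw [RatMap.subst, aeval_X, one_mul]
  | succ n ih =>
    obtain ⟨c, hc, h⟩ := ih
    obtain ⟨c', hc', h'⟩ := hf.eval (L := L) (a := a n) (b := a (n + 1)) (fun i => by
      rw [hstep]; exact rr_ev (hgood n) i)
    refine ⟨c ^ f.degree * c', mul_ne_zero (pow_ne_zero _ hc) hc', fun i => ?_⟩
    rw [RatMap.aeval_subst_succ]
    have e : (fun j => aeval (aff (a 0)) (f.subst n j)) = fun j => c * aff (a n) j := funext h
    rw [e, aeval_smul_of_isHomogeneous (f.homogeneous i), h', mul_assoc]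

theorem subst_hom (f : RatMap K 3) (n : ℕ) (i : Fin 4) :
    (f.subst n i).IsHomogeneous (f.degree ^ n) := by
  induction n generalizing i with
  | zero =>
    rw [RatMap.subst, pow_zero]
    exact isHomogeneous_X _ _
  | succ n ih =>
    rw [RatMap.subst, pow_succ]
    exact (f.homogeneous i).aeval (f.subst n) ih

theorem aeval_aff_gen (F : MvPolynomial (Fin 4) K) : aeval (aff (gen (K := K))) F = dehF F := by
  have h : (aeval (aff (gen (K := K))) : MvPolynomial (Fin 4) K →ₐ[K] FunField K 3) =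
      (IsScalarTower.toAlgHom K (MvPolynomial (Fin 3) K) (FunField K 3)).comp
        (aeval (aff (X : Fin 3 → MvPolynomial (Fin 3) K))) := by
    apply MvPolynomial.algHom_ext
    intro i
    refine Fin.cases ?_ (fun j => ?_) i
    · simp [aff]
    · simp [aff, gen]
  rw [h]
  rfl

/-- degree bounds for the generic orbit give degree bounds for the iterates -/
theorem upper {f : RatMap K 3} (hf : Represents f (rr (gen (K := K))))
    (a : ℕ → Fin 3 → FunField K 3) (h0 : a 0 = gen) (hgood : ∀ n, GoodPt (a n))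
    (hstep : ∀ n, a (n + 1) = rr (a n)) (n D : ℕ) (hD : ∀ i, HB (a n i) D) :
    ∃ g : RatMap K 3, f.IsIterate n g ∧ g.degree ≤ 3 * D := by
  obtain ⟨g, hgD, hg⟩ := exists_represents (a n) D hD
  obtain ⟨c, hc, h⟩ := subst_eval hf a hgood hstep n
  rw [h0] at h
  obtain ⟨H, hH⟩ := hg (f.degree ^ n) (f.subst n) c (subst_hom f n) (fun i => by
    rw [← aeval_aff_gen, h])
  refine ⟨g, ⟨H, ?_, hH⟩, hgD⟩
  rintro rfl
  have h1 := h 0
  rw [hH 0, zero_mul, map_zero] at h1
  simp only [aff, Fin.cons_zero, mul_one] at h1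
  exact hc h1.symm

/-- evaluation of an iterate along a special orbit -/
theorem iterate_eval {f g : RatMap K 3} (hf : Represents f (rr (gen (K := K)))) {n : ℕ}
    (hg : f.IsIterate n g)
    {L : Type*} [Field L] [Algebra K L] (a : ℕ → Fin 3 → L) (hgood : ∀ n, GoodPt (a n))
    (hstep : ∀ n, a (n + 1) = rr (a n)) :
    ∃ c : L, c ≠ 0 ∧ ∀ i, aeval (aff (a 0)) (g.poly i) = c * aff (a n) i := by
  obtain ⟨c, hc, h⟩ := subst_eval hf a hgood hstep n
  obtain ⟨H, hH0, hH⟩ := hg
  have h1 : ∀ i, aeval (aff (a 0)) H * aeval (aff (a 0)) (g.poly i) = c * aff (a n) i := by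
    intro i
    rw [← map_mul, ← hH, h]
  have h2 : aeval (aff (a 0)) H ≠ 0 := by
    intro h3
    have := h1 0
    rw [h3, zero_mul] at this
    simp only [aff, Fin.cons_zero, mul_one] at this
    exact hc this.symm
  refine ⟨(aeval (aff (a 0)) H)⁻¹ * c, mul_ne_zero (inv_ne_zero h2) hc, fun i => ?_⟩
  rw [mul_assoc, ← h1, inv_mul_cancel_left₀ h2]

end Iterate

end Pool.Agent.H905R3.Quartic
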