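import Mathlib

/-!
The numerators and denominators of the multiples `2^j S`.
-/

set_option autoImplicit false

namespace Pool.Agent.H905R3.Quartic

open Polynomial

variable (K : Type*) [Field K] [CharZero K]

/-- numerators and denominators -/
noncomputable def pq : ℕ → K[X] × K[X]
  | 0 => (1, 1)
  | (j + 1) => ((pq j).1 * (X * (pq j).1 ^ 3 - 8 * (1 - X) * (pq j).2 ^ 3),
      4 * (pq j).2 * (X * (pq j).1 ^ 3 + (1 - X) * (pq j).2 ^ 3))

/-- numerator -/
noncomputable def pp (j : ℕ) : K[X] := (pq K j).1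
/-- denominator -/
noncomputable def qq (j : ℕ) : K[X] := (pq K j).2

omit [CharZero K] in
theorem pp_succ (j : ℕ) : pp K (j + 1) =
    pp K j * (X * pp K j ^ 3 - 8 * (1 - X) * qq K j ^ 3) := rfl
omit [CharZero K] in
theorem qq_succ (j : ℕ) : qq K (j + 1) =
    4 * qq K j * (X * pp K j ^ 3 + (1 - X) * qq K j ^ 3) := rfl
omit [CharZero K] in
theorem pp_zero : pp K 0 = 1 := rfl
omit [CharZero K] in
theorem qq_zero : qq K 0 = 1 := rfl

omit [CharZero K] in
theorem pp_eval (j : ℕ) : (pp K j).eval 1 = 1 := by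
  induction j with
  | zero => simp [pp_zero]
  | succ j ih => simp [pp_succ, ih]

theorem qq_eval (j : ℕ) : (qq K j).eval 0 ≠ 0 := by
  induction j with
  | zero => simp [qq_zero]
  | succ j ih =>
    have : (qq K (j + 1)).eval 0 = 4 * (qq K j).eval 0 ^ 4 := by
      simp [qq_succ]
      ring
    rw [this]
    exact mul_ne_zero (by norm_num : (4 : K) ≠ 0) (pow_ne_zero _ ih)

theorem qq_ne (j : ℕ) : qq K j ≠ 0 := by
  intro h
  apply qq_eval K j
  rw [h, eval_zero]

omit [CharZero K] in
theorem cop_one_sub {p : K[X]} (h : p.eval 1 ≠ 0) : IsCoprime p (1 - X) := by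
  have h1 : IsCoprime (X - C 1) p := by
    rw [(irreducible_X_sub_C (1 : K)).coprime_iff_not_dvd, dvd_iff_isRoot]
    exact h
  have h2 : (1 - X : K[X]) = -(X - C 1) := by rw [map_one]; ring
  rw [h2]
  exact h1.symm.neg_right

omit [CharZero K] in
theorem cop_X {p : K[X]} (h : p.eval 0 ≠ 0) : IsCoprime p X := by
  have h1 : IsCoprime (X - C 0) p := by
    rw [(irreducible_X_sub_C (0 : K)).coprime_iff_not_dvd, dvd_iff_isRoot]
    exact h
  rw [map_zero, sub_zero] at h1
  exact h1.symm

theorem nine_unit : IsUnit (9 : K[X]) := by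
  have : (9 : K[X]) = C 9 := (map_ofNat C 9).symm
  rw [this, isUnit_C]
  exact (by norm_num : (9 : K) ≠ 0).isUnit

theorem four_unit : IsUnit (4 : K[X]) := by
  have : (4 : K[X]) = C 4 := (map_ofNat C 4).symm
  rw [this, isUnit_C]
  exact (by norm_num : (4 : K) ≠ 0).isUnit

theorem coprime (j : ℕ) : IsCoprime (pp K j) (qq K j) := by
  induction j with
  | zero => rw [pp_zero]; exact isCoprime_one_left
  | succ j ih =>
    have p1 : IsCoprime (pp K j) (1 - X) := cop_one_sub K (by rw [pp_eval]; exact one_ne_zero)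
    have q0 : IsCoprime (qq K j) X := cop_X K (qq_eval K j)
    have x1 : IsCoprime (X : K[X]) (1 - X) := cop_one_sub K (by simp)
    set p := pp K j
    set q := qq K j
    -- a with q
    have aq : IsCoprime (X * p ^ 3 - 8 * (1 - X) * q ^ 3) q := by
      have h1 : IsCoprime (X * p ^ 3) q := (q0.symm).mul_left (ih.pow_left)
      have e : X * p ^ 3 - 8 * (1 - X) * q ^ 3 = X * p ^ 3 + (-8 * (1 - X) * q ^ 2) * q := by ring
      rw [e]
      exact (IsCoprime.add_mul_right_left_iff).mpr h1
    -- p with b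
    have pb : IsCoprime p (X * p ^ 3 + (1 - X) * q ^ 3) := by
      have h1 : IsCoprime p ((1 - X) * q ^ 3) := p1.mul_right ih.pow_right
      have e : X * p ^ 3 + (1 - X) * q ^ 3 = (1 - X) * q ^ 3 + p * (X * p ^ 2) := by ring
      rw [e]
      exact (IsCoprime.add_mul_left_right_iff).mpr h1
    -- a with 1 - X
    have a1 : IsCoprime (X * p ^ 3 - 8 * (1 - X) * q ^ 3) (1 - X) := by
      have h1 : IsCoprime (X * p ^ 3) (1 - X) := x1.mul_left p1.pow_left
      have e : X * p ^ 3 - 8 * (1 - X) * q ^ 3 = X * p ^ 3 + (-8 * q ^ 3) * (1 - X) := by ring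
      rw [e]
      exact (IsCoprime.add_mul_right_left_iff).mpr h1
    have ab : IsCoprime (X * p ^ 3 - 8 * (1 - X) * q ^ 3) (X * p ^ 3 + (1 - X) * q ^ 3) := by
      have h1 : IsCoprime (X * p ^ 3 - 8 * (1 - X) * q ^ 3) (9 * ((1 - X) * q ^ 3)) := by
        refine IsCoprime.mul_right ?_ (a1.mul_right aq.pow_right)
        exact (isCoprime_one_right).of_isCoprime_of_dvd_right (nine_unit K).dvd
      have e : X * p ^ 3 + (1 - X) * q ^ 3 = 9 * ((1 - X) * q ^ 3) +
          (X * p ^ 3 - 8 * (1 - X) * q ^ 3) * 1 := by ring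
      rw [e]
      exact (IsCoprime.add_mul_left_right_iff).mpr h1
    rw [pp_succ, qq_succ]
    have h4 : ∀ z : K[X], IsCoprime z 4 := fun z =>
      (isCoprime_one_right).of_isCoprime_of_dvd_right (four_unit K).dvd
    exact IsCoprime.mul_left (((h4 _).mul_right ih).mul_right pb)
      (((h4 _).mul_right aq).mul_right ab)

theorem degrees (j : ℕ) : 3 * (pp K (j + 1)).natDegree + 1 = 4 ^ (j + 1) ∧
    (qq K (j + 1)).natDegree < (pp K (j + 1)).natDegree := by
  induction j with
  | zero =>
    have c9 : (C 9 : K[X]) = 9 := map_ofNat C 9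
    have c8 : (C 8 : K[X]) = 8 := map_ofNat C 8
    have c4 : (C 4 : K[X]) = 4 := map_ofNat C 4
    have h1 : pp K 1 = C 9 * X + C (-8) := by
      rw [pp_succ, pp_zero, qq_zero, C_neg, c9, c8]
      ring
    have h2 : qq K 1 = C 4 := by
      rw [qq_succ, pp_zero, qq_zero, c4]
      ring
    have h3 : (pp K 1).natDegree = 1 := by
      rw [h1]
      exact natDegree_linear (by norm_num)
    rw [zero_add, h3, h2, natDegree_C]
    norm_num
  | succ j ih =>
    obtain ⟨h1, h2⟩ := ih
    rw [pp_succ K (j + 1), qq_succ K (j + 1)]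
    set p := pp K (j + 1)
    set q := qq K (j + 1) with hq
    have hp0 : p ≠ 0 := by
      intro h
      rw [h] at h2
      simp at h2
    have hq0 : q ≠ 0 := qq_ne K (j + 1)
    have d1 : (X * p ^ 3).natDegree = 3 * p.natDegree + 1 := by
      rw [natDegree_mul X_ne_zero (pow_ne_zero _ hp0), natDegree_X, natDegree_pow]
      ring
    have d2 : ∀ z : K[X], z.natDegree ≤ 1 → (z * q ^ 3).natDegree ≤ 3 * q.natDegree + 1 := by
      intro z hz
      refine natDegree_mul_le.trans ?_
      rw [natDegree_pow]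
      omega
    have e1 : (1 - X : K[X]).natDegree ≤ 1 := by
      refine (natDegree_sub_le _ _).trans ?_
      simp
    have e8 : (8 * (1 - X) : K[X]).natDegree ≤ 1 := by
      refine natDegree_mul_le.trans ?_
      have : (8 : K[X]).natDegree = 0 := natDegree_ofNat 8
      omega
    have da : (X * p ^ 3 - 8 * (1 - X) * q ^ 3).natDegree = 3 * p.natDegree + 1 := by
      rw [natDegree_sub_eq_left_of_natDegree_lt, d1]
      rw [d1]
      have := d2 _ e8
      omega
    have db : (X * p ^ 3 + (1 - X) * q ^ 3).natDegree = 3 * p.natDegree + 1 := by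
      rw [natDegree_add_eq_left_of_natDegree_lt, d1]
      rw [d1]
      have := d2 _ e1
      omega
    have a0 : X * p ^ 3 - 8 * (1 - X) * q ^ 3 ≠ 0 := by
      intro h; rw [h, natDegree_zero] at da; omega
    have b0 : X * p ^ 3 + (1 - X) * q ^ 3 ≠ 0 := by
      intro h; rw [h, natDegree_zero] at db; omega
    have f0 : (4 : K[X]) ≠ 0 := (four_unit K).ne_zero
    constructor
    · rw [natDegree_mul hp0 a0, da, pow_succ]
      omega
    · rw [natDegree_mul hp0 a0, da, natDegree_mul (mul_ne_zero f0 hq0) b0, db,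
        natDegree_mul f0 hq0]
      have : (4 : K[X]).natDegree = 0 := natDegree_ofNat 4
      omega

theorem qq_degree (j : ℕ) : 4 ^ (j + 1) ≤ (qq K (j + 2)).natDegree := by
  obtain ⟨h1, h2⟩ := degrees K j
  rw [qq_succ K (j + 1)]
  set p := pp K (j + 1)
  set q := qq K (j + 1) with hq
  have hp0 : p ≠ 0 := by
    intro h
    rw [h] at h2
    simp at h2
  have hq0 : q ≠ 0 := qq_ne K (j + 1)
  have d1 : (X * p ^ 3).natDegree = 3 * p.natDegree + 1 := by
    rw [natDegree_mul X_ne_zero (pow_ne_zero _ hp0), natDegree_X, natDegree_pow]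
    ring
  have e1 : (1 - X : K[X]).natDegree ≤ 1 := by
    refine (natDegree_sub_le _ _).trans ?_
    simp
  have d2 : ((1 - X) * q ^ 3).natDegree ≤ 3 * q.natDegree + 1 := by
    refine natDegree_mul_le.trans ?_
    rw [natDegree_pow]
    omega
  have db : (X * p ^ 3 + (1 - X) * q ^ 3).natDegree = 3 * p.natDegree + 1 := by
    rw [natDegree_add_eq_left_of_natDegree_lt, d1]
    rw [d1]
    omega
  have b0 : X * p ^ 3 + (1 - X) * q ^ 3 ≠ 0 := by
    intro h; rw [h, natDegree_zero] at db; omega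
  have f0 : (4 : K[X]) ≠ 0 := (four_unit K).ne_zero
  rw [natDegree_mul (mul_ne_zero f0 hq0) b0, db]
  omega

end Pool.Agent.H905R3.Quartic
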