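import Mathlib
import Pool.Agent.H905R3.Ev

/-!
The group law on the curves `κ y² = x³ + κ - 1`, in the form `Y² = X³ + κ³ (κ - 1)` with
`X = κ x`, `Y = κ² y`.
-/

set_option autoImplicit false

namespace Pool.Agent.H905R3.Quartic

open WeierstrassCurve WeierstrassCurve.Affine

variable {L : Type*} [Field L] [DecidableEq L]

/-- the curve `y² = x³ + D` -/
def WD (D : L) : Affine L := ⟨0, 0, 0, 0, D⟩

omit [DecidableEq L] in
theorem WD_eq {D x y : L} : (WD D).Equation x y ↔ y ^ 2 = x ^ 3 + D := by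
  rw [WeierstrassCurve.Affine.equation_iff]
  simp [WD]

omit [DecidableEq L] in
theorem WD_negY {D x y : L} : (WD D).negY x y = -y := by simp [WD, WeierstrassCurve.Affine.negY]

omit [DecidableEq L] in
theorem WD_nonsing {D x y : L} (h2 : (2 : L) ≠ 0) (h : y ^ 2 = x ^ 3 + D) (hy : y ≠ 0) :
    (WD D).Nonsingular x y := by
  rw [WeierstrassCurve.Affine.nonsingular_iff]
  refine ⟨WD_eq.mpr h, Or.inr ?_⟩
  simp only [WD]
  intro h3
  have : 2 * y = 0 := by linear_combination h3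
  rcases mul_eq_zero.mp this with h4 | h4
  · exact h2 h4
  · exact hy h4

/-- addition of points with different first coordinates -/
theorem add_ne {D x1 y1 x2 y2 : L} {h1 : (WD D).Nonsingular x1 y1} {h2 : (WD D).Nonsingular x2 y2}
    (hx : x1 ≠ x2) : ∃ h : (WD D).Nonsingular (((y1 - y2) / (x1 - x2)) ^ 2 - x1 - x2)
      (-(y1 + (y1 - y2) / (x1 - x2) * ((((y1 - y2) / (x1 - x2)) ^ 2 - x1 - x2) - x1))),
    Point.some x1 y1 h1 + Point.some x2 y2 h2 = Point.some _ _ h := by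
  have hxy : ¬(x1 = x2 ∧ y1 = (WD D).negY x2 y2) := fun h => hx h.1
  have e := Point.add_some hxy (h₁ := h1) (h₂ := h2)
  have hs : (WD D).slope x1 x2 y1 y2 = (y1 - y2) / (x1 - x2) := slope_of_X_ne hx
  have eX : (WD D).addX x1 x2 ((WD D).slope x1 x2 y1 y2) =
      ((y1 - y2) / (x1 - x2)) ^ 2 - x1 - x2 := by
    rw [hs]; simp [WD, addX]
  have eY : (WD D).addY x1 x2 y1 ((WD D).slope x1 x2 y1 y2) =
      -(y1 + (y1 - y2) / (x1 - x2) * ((((y1 - y2) / (x1 - x2)) ^ 2 - x1 - x2) - x1)) := by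
    rw [addY, negAddY, eX, hs, WD_negY]
    ring
  have hn := nonsingular_add h1 h2 hxy
  rw [eX, eY] at hn
  refine ⟨hn, ?_⟩
  rw [e]
  simp only [Point.some.injEq]
  exact ⟨eX, eY⟩

/-- doubling -/
theorem dbl {D x y : L} {h : (WD D).Nonsingular x y} (hy : 2 * y ≠ 0) :
    ∃ h' : (WD D).Nonsingular ((3 * x ^ 2 / (2 * y)) ^ 2 - x - x)
      (-(y + 3 * x ^ 2 / (2 * y) * (((3 * x ^ 2 / (2 * y)) ^ 2 - x - x) - x))),
    Point.some x y h + Point.some x y h = Point.some _ _ h' := by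
  have hne : y ≠ (WD D).negY x y := by
    rw [WD_negY]
    intro h3
    apply hy
    linear_combination h3
  have hxy : ¬(x = x ∧ y = (WD D).negY x y) := fun h => hne h.2
  have e := Point.add_some hxy (h₁ := h) (h₂ := h)
  have hs : (WD D).slope x x y y = 3 * x ^ 2 / (2 * y) := by
    rw [slope_of_Y_ne rfl hne, WD_negY]
    simp only [WD]
    congr 1 <;> ring
  have eX : (WD D).addX x x ((WD D).slope x x y y) = (3 * x ^ 2 / (2 * y)) ^ 2 - x - x := by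
    rw [hs]; simp [WD, addX]
  have eY : (WD D).addY x x y ((WD D).slope x x y y) =
      -(y + 3 * x ^ 2 / (2 * y) * (((3 * x ^ 2 / (2 * y)) ^ 2 - x - x) - x)) := by
    rw [addY, negAddY, eX, hs, WD_negY]
    ring
  have hn := nonsingular_add h h hxy
  rw [eX, eY] at hn
  refine ⟨hn, ?_⟩
  rw [e]
  simp only [Point.some.injEq]
  exact ⟨eX, eY⟩

/-- the point `(s, u)` of the curve `κ y² = x³ + κ - 1` -/
def IsPt (κ s u : L) (P : (WD (κ ^ 3 * (κ - 1))).Point) : Prop :=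
  ∃ h : (WD (κ ^ 3 * (κ - 1))).Nonsingular (κ * s) (κ ^ 2 * u), P = Point.some _ _ h

omit [DecidableEq L] in
theorem IsPt.curve {κ s u : L} {P : (WD (κ ^ 3 * (κ - 1))).Point} (h : IsPt κ s u P) (hκ : κ ≠ 0) :
    κ * (u ^ 2 - 1) = s ^ 3 - 1 := by
  obtain ⟨h1, -⟩ := h
  have h2 := WD_eq.mp h1.1
  have h3 : κ ^ 3 * (κ * (u ^ 2 - 1)) = κ ^ 3 * (s ^ 3 - 1) := by linear_combination h2
  exact mul_left_cancel₀ (pow_ne_zero 3 hκ) h3

theorem IsPt.add {κ s u t v : L} {P Q : (WD (κ ^ 3 * (κ - 1))).Point} (hP : IsPt κ s u P)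
    (hQ : IsPt κ t v Q) (hκ : κ ≠ 0) (hst : s - t ≠ 0) :
    IsPt κ (κ * ((u - v) / (s - t)) ^ 2 - s - t)
      (-(u + (u - v) / (s - t) * ((κ * ((u - v) / (s - t)) ^ 2 - s - t) - s))) (P + Q) := by
  obtain ⟨h1, rfl⟩ := hP
  obtain ⟨h2, rfl⟩ := hQ
  have hx : κ * s ≠ κ * t := by
    intro h
    exact hst (sub_eq_zero.mpr (mul_left_cancel₀ hκ h))
  obtain ⟨h3, e⟩ := add_ne (h1 := h1) (h2 := h2) hx
  have e1 : (κ ^ 2 * u - κ ^ 2 * v) / (κ * s - κ * t) = κ * ((u - v) / (s - t)) := by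
    rw [← mul_sub, ← mul_sub]
    field_simp
  have e2 : ((κ ^ 2 * u - κ ^ 2 * v) / (κ * s - κ * t)) ^ 2 - κ * s - κ * t =
      κ * (κ * ((u - v) / (s - t)) ^ 2 - s - t) := by rw [e1]; ring
  have e3 : -(κ ^ 2 * u + (κ ^ 2 * u - κ ^ 2 * v) / (κ * s - κ * t) *
      ((((κ ^ 2 * u - κ ^ 2 * v) / (κ * s - κ * t)) ^ 2 - κ * s - κ * t) - κ * s)) =
      κ ^ 2 * (-(u + (u - v) / (s - t) * ((κ * ((u - v) / (s - t)) ^ 2 - s - t) - s))) := by
    rw [e1]; ring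
  rw [e3, e2] at h3
  refine ⟨h3, ?_⟩
  rw [e]
  simp only [Point.some.injEq]
  exact ⟨e2, e3⟩

theorem IsPt.dbl {κ s u : L} {P : (WD (κ ^ 3 * (κ - 1))).Point} (hP : IsPt κ s u P)
    (hκ : κ ≠ 0) (hu : 2 * u ≠ 0) :
    IsPt κ (κ * (3 * s ^ 2 / (2 * κ * u)) ^ 2 - s - s)
      (-(u + 3 * s ^ 2 / (2 * κ * u) * ((κ * (3 * s ^ 2 / (2 * κ * u)) ^ 2 - s - s) - s)))
      (P + P) := by
  obtain ⟨h1, rfl⟩ := hP
  have hy : 2 * (κ ^ 2 * u) ≠ 0 := by
    rw [mul_left_comm]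
    exact mul_ne_zero (pow_ne_zero 2 hκ) hu
  have hu1 : (2 : L) ≠ 0 := left_ne_zero_of_mul hu
  have hu2 : u ≠ 0 := right_ne_zero_of_mul hu
  obtain ⟨h3, e⟩ := Quartic.dbl (h := h1) hy
  have e1 : 3 * (κ * s) ^ 2 / (2 * (κ ^ 2 * u)) = κ * (3 * s ^ 2 / (2 * κ * u)) := by
    field_simp
  have e2 : (3 * (κ * s) ^ 2 / (2 * (κ ^ 2 * u))) ^ 2 - κ * s - κ * s =
      κ * (κ * (3 * s ^ 2 / (2 * κ * u)) ^ 2 - s - s) := by rw [e1]; ring
  have e3 : -(κ ^ 2 * u + 3 * (κ * s) ^ 2 / (2 * (κ ^ 2 * u)) *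
      (((3 * (κ * s) ^ 2 / (2 * (κ ^ 2 * u))) ^ 2 - κ * s - κ * s) - κ * s)) =
      κ ^ 2 * (-(u + 3 * s ^ 2 / (2 * κ * u) * ((κ * (3 * s ^ 2 / (2 * κ * u)) ^ 2 - s - s) - s))) := by
    rw [e1]; ring
  rw [e3, e2] at h3
  refine ⟨h3, ?_⟩
  rw [e]
  simp only [Point.some.injEq]
  exact ⟨e2, e3⟩

/-- the state: `(s, t, m)` are the coordinates of the pair of points `(P, Q)` -/
def St (κ : L) (P Q : (WD (κ ^ 3 * (κ - 1))).Point) (s t m : L) : Prop :=
  ∃ u v, IsPt κ s u P ∧ IsPt κ t v Q ∧ v - 1 = m * (u - 1) ∧ u - 1 ≠ 0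

/-- **The step.** -/
theorem St.step {κ s t m : L} {P Q T : (WD (κ ^ 3 * (κ - 1))).Point} (hκ : κ ≠ 0)
    (hT : IsPt κ 1 1 T) (h : St κ P Q s t m) (hg : Good s t m) :
    St κ (P + T) (Q + P) (rs s t m) (rt s t m) (rm s t m) := by
  obtain ⟨u, v, hP, hQ, hm, hu⟩ := h
  have cP := hP.curve hκ
  have cQ := hQ.curve hκ
  obtain ⟨m0, m1, s1, ts, den⟩ := hg
  have hs1 : s - 1 ≠ 0 := by
    intro h; apply s1; linear_combination -h
  have eA : rA s t m = κ * (u - 1) ^ 2 := by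
    rw [rA, div_eq_iff (mul_ne_zero m0 m1)]
    have hv : v = 1 + m * (u - 1) := by linear_combination hm
    rw [hv] at cQ
    linear_combination cQ - m * cP
  have hPT := hP.add hT hκ hs1
  have hQP := hQ.add hP hκ ts
  have es : rs s t m = κ * ((u - 1) / (s - 1)) ^ 2 - s - 1 := by
    rw [rs, eA]
    have : (1 - s) ^ 2 = (s - 1) ^ 2 := by ring
    rw [this]
    field_simp
  have hvu : v - u = (m - 1) * (u - 1) := by linear_combination hm
  have et : rt s t m = κ * ((v - u) / (t - s)) ^ 2 - t - s := by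
    rw [rt, eA, hvu]
    field_simp
    ring
  rw [← es] at hPT
  rw [← et] at hQP
  set u1 := -(u + (u - 1) / (s - 1) * (rs s t m - s)) with hu1
  set v1 := -(v + (v - u) / (t - s) * (rt s t m - t)) with hv1
  have eden : rden s t m = κ * (u - 1) * (u1 - 1) := by
    rw [rden, eA, hu1]
    have : rs s t m - s = rs s t m - s := rfl
    have e1 : κ * (u - 1) ^ 2 * (rs s t m - s) / (1 - s) =
        -(κ * (u - 1) * ((u - 1) / (s - 1) * (rs s t m - s))) := by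
      have : 1 - s = -(s - 1) := by ring
      rw [this]
      field_simp
    rw [e1]
    linear_combination cP
  have hu1' : u1 - 1 ≠ 0 := by
    intro h0
    apply den
    rw [eden, h0, mul_zero]
  have eden0 : κ * (u - 1) ≠ 0 := mul_ne_zero hκ hu
  refine ⟨u1, v1, hPT, hQP, ?_, hu1'⟩
  have enum : (1 - s ^ 3) + (1 - m) * rA s t m * (rt s t m - s) / (t - s) =
      κ * (u - 1) * (v1 - 1) := by
    rw [eA, hv1]
    have e1 : (1 - m) * (κ * (u - 1) ^ 2) * (rt s t m - s) / (t - s) =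
        -(κ * (u - 1) * ((v - u) / (t - s) * (rt s t m - s))) := by
      rw [hvu]
      field_simp
      ring
    rw [e1]
    have e2 : (v - u) / (t - s) * (rt s t m - s) =
        (v - u) / (t - s) * (rt s t m - t) + (v - u) := by
      field_simp
      ring
    rw [e2]
    linear_combination cP
  rw [rm, enum, eden]
  field_simp

end Pool.Agent.H905R3.Quartic
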