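import Mathlib
import Pool.Agent.H905R3.Ev

/-!
The orbit on the cuspidal cubic `κ = 1`, where the group law is addition.
-/

set_option autoImplicit false

namespace Pool.Agent.H905R3.Quartic

/-- the coordinates of the pair of points with parameters `p`, `q` of the cuspidal cubic -/
def sp (p q : ℚ) : Fin 3 → ℚ := ![1 / p ^ 2, 1 / q ^ 2, (1 / q ^ 3 - 1) / (1 / p ^ 3 - 1)]

theorem cube_ne {a b : ℚ} (ha : 0 < a) (hb : 0 < b) (h : a ≠ b) : a ^ 3 - b ^ 3 ≠ 0 := by
  intro h0
  apply h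
  have h1 : (a - b) * (a ^ 2 + a * b + b ^ 2) = 0 := by linear_combination h0
  rcases mul_eq_zero.mp h1 with h2 | h2
  · linarith
  · nlinarith

theorem sp_step {p q : ℚ} (hp : 1 < p) (hq : 0 < q) (hq1 : q ≠ 1) (hpq : q ≠ p) :
    GoodPt (sp p q) ∧ rr (sp p q) = sp (p + 1) (q + p) := by
  have p0 : p ≠ 0 := by linarith
  have q0 : q ≠ 0 := hq.ne'
  have p3 : p ^ 3 - 1 ≠ 0 := by
    have := cube_ne (a := p) (b := 1) (by linarith) one_pos hp.ne'
    simpa using this
  have p3' : 1 - p ^ 3 ≠ 0 := by intro h; apply p3; linear_combination -h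
  have q3 : q ^ 3 - 1 ≠ 0 := by
    have := cube_ne (a := q) (b := 1) hq one_pos hq1
    simpa using this
  have q3' : 1 - q ^ 3 ≠ 0 := by intro h; apply q3; linear_combination -h
  have pq3 : q ^ 3 - p ^ 3 ≠ 0 := cube_ne hq (by linarith) hpq
  have pq1 : q - p ≠ 0 := sub_ne_zero.mpr hpq
  have pq1' : p - q ≠ 0 := sub_ne_zero.mpr hpq.symm
  have pq2 : q + p ≠ 0 := by linarith
  have pq2' : p + q ≠ 0 := by linarith
  have p1 : p - 1 ≠ 0 := by linarith
  have p1' : 1 - p ≠ 0 := by linarith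
  have p2 : p + 1 ≠ 0 := by linarith
  have p13 : (p + 1) ^ 3 - 1 ≠ 0 := by
    have := cube_ne (a := p + 1) (b := 1) (by linarith) one_pos (by linarith)
    simpa using this
  set s : ℚ := 1 / p ^ 2 with hs
  set t : ℚ := 1 / q ^ 2 with ht
  set m : ℚ := (1 / q ^ 3 - 1) / (1 / p ^ 3 - 1) with hm
  have em : m = (1 - q ^ 3) * p ^ 3 / ((1 - p ^ 3) * q ^ 3) := by
    rw [hm]; field_simp
  have m0 : m ≠ 0 := by
    rw [em]
    exact div_ne_zero (mul_ne_zero q3' (pow_ne_zero _ p0)) (mul_ne_zero p3' (pow_ne_zero _ q0))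
  have em1 : 1 - m = (q ^ 3 - p ^ 3) / ((1 - p ^ 3) * q ^ 3) := by
    rw [em, eq_div_iff (mul_ne_zero p3' (pow_ne_zero _ q0)), sub_mul,
      div_mul_cancel₀ _ (mul_ne_zero p3' (pow_ne_zero _ q0))]
    ring
  have m1 : 1 - m ≠ 0 := by
    rw [em1]
    exact div_ne_zero pq3 (mul_ne_zero p3' (pow_ne_zero _ q0))
  have es1 : 1 - s = (p - 1) * (p + 1) / p ^ 2 := by rw [hs]; field_simp; ring
  have s1 : 1 - s ≠ 0 := by
    rw [es1]; exact div_ne_zero (mul_ne_zero p1 p2) (pow_ne_zero _ p0)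
  have ets : t - s = (p - q) * (p + q) / (p ^ 2 * q ^ 2) := by rw [hs, ht]; field_simp; ring
  have ts : t - s ≠ 0 := by
    rw [ets]; exact div_ne_zero (mul_ne_zero pq1' pq2') (mul_ne_zero (pow_ne_zero _ p0)
      (pow_ne_zero _ q0))
  have eA : rA s t m = (1 - p ^ 3) ^ 2 / p ^ 6 := by
    rw [rA, div_eq_iff (mul_ne_zero m0 m1), em1, em, hs, ht]
    field_simp
    ring
  have ers : rs s t m = 1 / (p + 1) ^ 2 := by
    rw [rs, eA, es1, hs]
    field_simp
    ring
  have ert : rt s t m = 1 / (q + p) ^ 2 := by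
    rw [rt, eA, ets, em1, hs, ht]
    field_simp
    ring
  have eden : rden s t m = (1 / p ^ 3 - 1) * (1 / (p + 1) ^ 3 - 1) := by
    rw [rden, eA, ers, es1, hs]
    field_simp
    ring
  have hu : 1 / p ^ 3 - 1 ≠ 0 := by
    have : 1 / p ^ 3 - 1 = (1 - p ^ 3) / p ^ 3 := by field_simp
    rw [this]; exact div_ne_zero p3' (pow_ne_zero _ p0)
  have hu1 : 1 / (p + 1) ^ 3 - 1 ≠ 0 := by
    have : 1 / (p + 1) ^ 3 - 1 = -((p + 1) ^ 3 - 1) / (p + 1) ^ 3 := by field_simp; ring
    rw [this]; exact div_ne_zero (neg_ne_zero.mpr p13) (pow_ne_zero _ p2)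
  have den : rden s t m ≠ 0 := by rw [eden]; exact mul_ne_zero hu hu1
  have erm : rm s t m = (1 / (q + p) ^ 3 - 1) / (1 / (p + 1) ^ 3 - 1) := by
    rw [rm, div_eq_div_iff den hu1, eden, eA, ert, ets, em1, hs]
    field_simp
    ring
  refine ⟨⟨m0, m1, s1, ts, den⟩, ?_⟩
  funext i
  fin_cases i
  · exact ers
  · exact ert
  · exact erm

/-- the special orbit -/
def spn (n : ℕ) : Fin 3 → ℚ := sp ((2 * n + 3) / 2) ((n + 1) ^ 2 / 2)

theorem spn_step (n : ℕ) : GoodPt (spn n) ∧ rr (spn n) = spn (n + 1) := by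
  have hn : (0 : ℚ) ≤ n := Nat.cast_nonneg n
  have h := sp_step (p := (2 * n + 3) / 2) (q := (n + 1) ^ 2 / 2) (by linarith) (by positivity)
    (by
      intro h
      have h1 : ((n : ℚ) + 1) ^ 2 = 2 := by linarith
      have h2 : (n + 1) ^ 2 = 2 := by exact_mod_cast h1
      have h3 : n < 1 := by nlinarith
      interval_cases n
      norm_num at h2)
    (by
      intro h
      have h1 : ((n : ℚ)) ^ 2 = 2 := by linarith
      have h2 : n ^ 2 = 2 := by exact_mod_cast h1
      have h3 : n < 2 := by nlinarith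
      interval_cases n <;> norm_num at h2)
  refine ⟨h.1, ?_⟩
  rw [spn, h.2, spn]
  congr 1
  · push_cast; ring
  · push_cast; ring

section Map

variable {L L' : Type*} [Field L] [Field L'] (φ : L →+* L')

theorem map_rA (s t m : L) : φ (rA s t m) = rA (φ s) (φ t) (φ m) := by
  simp [rA]
theorem map_rs (s t m : L) : φ (rs s t m) = rs (φ s) (φ t) (φ m) := by
  simp [rs, map_rA]
theorem map_rt (s t m : L) : φ (rt s t m) = rt (φ s) (φ t) (φ m) := by
  simp [rt, map_rA]
theorem map_rden (s t m : L) : φ (rden s t m) = rden (φ s) (φ t) (φ m) := by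
  simp [rden, map_rA, map_rs]
theorem map_rm (s t m : L) : φ (rm s t m) = rm (φ s) (φ t) (φ m) := by
  simp [rm, map_rA, map_rt, map_rden]

theorem map_rr (a : Fin 3 → L) : (fun i => φ (rr a i)) = rr (fun i => φ (a i)) := by
  funext i
  fin_cases i
  · exact map_rs φ _ _ _
  · exact map_rt φ _ _ _
  · exact map_rm φ _ _ _

theorem GoodPt.map {a : Fin 3 → L} (h : GoodPt a) : GoodPt (fun i => φ (a i)) where
  m0 := (map_ne_zero φ).mpr h.m0
  m1 := by have := (map_ne_zero φ).mpr h.m1; rwa [map_sub, map_one] at this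
  s1 := by have := (map_ne_zero φ).mpr h.s1; rwa [map_sub, map_one] at this
  ts := by have := (map_ne_zero φ).mpr h.ts; rwa [map_sub] at this
  den := by have := (map_ne_zero φ).mpr h.den; rwa [map_rden] at this

end Map

/-- the special orbit in a field of characteristic zero -/
def spK (K : Type*) [Field K] [CharZero K] (n : ℕ) : Fin 3 → K := fun i => Rat.castHom K (spn n i)

theorem spK_good (K : Type*) [Field K] [CharZero K] (n : ℕ) : GoodPt (spK K n) :=
  (spn_step n).1.map (Rat.castHom K)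

theorem spK_step (K : Type*) [Field K] [CharZero K] (n : ℕ) : spK K (n + 1) = rr (spK K n) := by
  have h := map_rr (Rat.castHom K) (spn n)
  rw [(spn_step n).2] at h
  exact h

end Pool.Agent.H905R3.Quartic
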