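import Mathlib
import Pool.Agent.H905R3.Iter
import Pool.Agent.H905R3.Pt
import Pool.Agent.H905R3.Special
import Pool.Agent.H905R3.PolySeq

/-!
The lower bound for the degrees, along a rational curve.
-/

set_option autoImplicit false

namespace Pool.Agent.H905R3.Quartic

open Polynomial

universe u

section Orb

variable {R Ω K : Type*} [CommRing R] [IsDomain R] [Field Ω] [Algebra R Ω] [IsFractionRing R Ω]
  [Field K] [CharZero K] {ev : R →+* K}

/-- the orbit of a triple -/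
def orb {L : Type*} [Field L] (a0 : Fin 3 → L) : ℕ → Fin 3 → L
  | 0 => a0
  | (n + 1) => rr (orb a0 n)

theorem orb_ev {a0 : Fin 3 → Ω} {k : ℕ} (h : ∀ i, EvTo ev (a0 i) (spK K k i)) (n : ℕ) (i : Fin 3) :
    EvTo ev (orb a0 n i) (spK K (k + n) i) := by
  induction n generalizing i with
  | zero => exact h i
  | succ n ih =>
    rw [orb, ← add_assoc, spK_step]
    exact EvTo.rr ih (spK_good K _) i

theorem orb_good {a0 : Fin 3 → Ω} {k : ℕ} (h : ∀ i, EvTo ev (a0 i) (spK K k i)) (n : ℕ) :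
    GoodPt (orb a0 n) :=
  GoodPt.of_ev (orb_ev h n) (spK_good K _)

end Orb

section Curve

variable (K : Type*) [Field K] [CharZero K]

/-- the function field of the line -/
abbrev Ω1 := FractionRing K[X]

/-- the parameter -/
noncomputable def c : Ω1 K := algebraMap K[X] (Ω1 K) X
/-- `9 c - 8` -/
noncomputable def A : Ω1 K := 9 * c K - 8
/-- `27 c² - 36 c + 8` -/
noncomputable def B : Ω1 K := 27 * c K ^ 2 - 36 * c K + 8
/-- the parameter of the curve -/
noncomputable def κ : Ω1 K := B K ^ 2 / (c K * A K ^ 3)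
/-- first coordinate of `S` -/
noncomputable def sS : Ω1 K := 4 / A K
/-- second coordinate of `S` -/
noncomputable def uS : Ω1 K := -8 / B K
/-- first coordinate of `3 S` -/
noncomputable def s3 : Ω1 K := κ K * ((uS K - 1) / (sS K - 1)) ^ 2 - sS K - 1
/-- second coordinate of `3 S` -/
noncomputable def u3 : Ω1 K := -(uS K + (uS K - 1) / (sS K - 1) * (s3 K - sS K))
/-- the start of the orbit -/
noncomputable def start : Fin 3 → Ω1 K := ![s3 K, sS K, (uS K - 1) / (u3 K - 1)]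

/-- evaluation at `c = 1` -/
noncomputable def ev1 : K[X] →+* K := evalRingHom 1

variable {K}

omit [CharZero K] in
theorem nat_ev (n : ℕ) : EvTo (ev1 K) ((n : ℕ) : Ω1 K) (n : K) := EvTo.natCast n

omit [CharZero K] in
theorem c_ev : EvTo (ev1 K) (c K) 1 := by
  have := EvTo.ofRing (ev := ev1 K) (Ω := Ω1 K) X
  simpa [ev1, c] using this

omit [CharZero K] in
theorem A_ev : EvTo (ev1 K) (A K) 1 := by
  have h := ((nat_ev (K := K) 9).mul c_ev).sub (nat_ev (K := K) 8)
  have e : ((9 : ℕ) : K) * 1 - ((8 : ℕ) : K) = 1 := by norm_num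
  rw [e] at h
  exact_mod_cast h

omit [CharZero K] in
theorem B_ev : EvTo (ev1 K) (B K) (-1) := by
  have h := (((nat_ev (K := K) 27).mul (c_ev.pow 2)).sub ((nat_ev (K := K) 36).mul c_ev)).add
    (nat_ev (K := K) 8)
  have e : ((27 : ℕ) : K) * 1 ^ 2 - ((36 : ℕ) : K) * 1 + ((8 : ℕ) : K) = -1 := by norm_num
  rw [e] at h
  exact_mod_cast h

theorem c_ne : c K ≠ 0 := c_ev.ne_zero one_ne_zero
theorem A_ne : A K ≠ 0 := A_ev.ne_zero one_ne_zero
theorem B_ne : B K ≠ 0 := B_ev.ne_zero (neg_ne_zero.mpr one_ne_zero)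

theorem κ_ev : EvTo (ev1 K) (κ K) 1 := by
  have h := (B_ev (K := K).pow 2).div (c_ev.mul (A_ev.pow 3)) (by norm_num)
  have e : (-1 : K) ^ 2 / (1 * 1 ^ 3) = 1 := by norm_num
  rwa [e] at h

theorem κ_ne : κ K ≠ 0 := κ_ev.ne_zero one_ne_zero

theorem sS_ev : EvTo (ev1 K) (sS K) 4 := by
  have h := (nat_ev (K := K) 4).div A_ev one_ne_zero
  have e : ((4 : ℕ) : K) / 1 = 4 := by norm_num
  rw [e] at h
  exact_mod_cast h

theorem uS_ev : EvTo (ev1 K) (uS K) 8 := by
  have h := (nat_ev (K := K) 8).neg.div B_ev (neg_ne_zero.mpr one_ne_zero)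
  have e : -((8 : ℕ) : K) / (-1) = 8 := by norm_num
  rw [e] at h
  exact_mod_cast h

theorem s3_ev : EvTo (ev1 K) (s3 K) (4 / 9) := by
  have h := (((κ_ev (K := K)).mul (((uS_ev.sub EvTo.one).div (sS_ev.sub EvTo.one)
    (by norm_num)).pow 2)).sub sS_ev).sub EvTo.one
  have e : (1 : K) * ((8 - 1) / (4 - 1)) ^ 2 - 4 - 1 = 4 / 9 := by norm_num
  rwa [e] at h

theorem u3_ev : EvTo (ev1 K) (u3 K) (8 / 27) := by
  have h := ((uS_ev (K := K)).add (((uS_ev.sub EvTo.one).div (sS_ev.sub EvTo.one)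
    (by norm_num)).mul (s3_ev.sub sS_ev))).neg
  have e : -((8 : K) + (8 - 1) / (4 - 1) * (4 / 9 - 4)) = 8 / 27 := by norm_num
  rwa [e] at h

theorem u3_ne : u3 K - 1 ≠ 0 := (u3_ev.sub EvTo.one).ne_zero (by norm_num)
theorem sS_ne : sS K - 1 ≠ 0 := (sS_ev.sub EvTo.one).ne_zero (by norm_num)

theorem start_ev (i : Fin 3) : EvTo (ev1 K) (start K i) (spK K 0 i) := by
  fin_cases i
  · have e : spK K 0 0 = 4 / 9 := by
      simp [spK, spn, sp]
      norm_num
    change EvTo (ev1 K) (s3 K) (spK K 0 0)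
    rw [e]
    exact s3_ev
  · have e : spK K 0 1 = 4 := by
      simp [spK, spn, sp]
      norm_num
    change EvTo (ev1 K) (sS K) (spK K 0 1)
    rw [e]
    exact sS_ev
  · have e : spK K 0 2 = (8 - 1) / (8 / 27 - 1) := by
      simp [spK, spn, sp]
      norm_num
    change EvTo (ev1 K) ((uS K - 1) / (u3 K - 1)) (spK K 0 2)
    rw [e]
    exact (uS_ev.sub EvTo.one).div (u3_ev.sub EvTo.one) (by norm_num)

/-! ### the points -/

omit [CharZero K] in
theorem B_sq : B K ^ 2 = c K * A K ^ 3 + 64 * (1 - c K) := by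
  rw [A, B]; ring

theorem κ_sub : κ K - 1 = 64 * (1 - c K) / (c K * A K ^ 3) := by
  have h1 := c_ne (K := K)
  have h2 := A_ne (K := K)
  rw [κ, B_sq]
  field_simp
  ring

theorem two_ne : (2 : Ω1 K) ≠ 0 := two_ne_zero

theorem curve_S : (κ K ^ 2 * uS K) ^ 2 = (κ K * sS K) ^ 3 + κ K ^ 3 * (κ K - 1) := by
  have h1 := c_ne (K := K)
  have h2 := A_ne (K := K)
  have h3 := B_ne (K := K)
  have h4 : κ K * (uS K ^ 2 - 1) = sS K ^ 3 - 1 := by
    rw [κ, uS, sS]
    have h5 := B_sq (K := K)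
    field_simp
    linear_combination (-1 : Ω1 K) * h5
  linear_combination κ K ^ 3 * h4

theorem uS_ne : uS K ≠ 0 := by
  rw [uS]
  exact div_ne_zero (by norm_num) B_ne

theorem nonsing_S : (WD (κ K ^ 3 * (κ K - 1))).Nonsingular (κ K * sS K) (κ K ^ 2 * uS K) :=
  WD_nonsing two_ne curve_S (mul_ne_zero (pow_ne_zero _ κ_ne) uS_ne)

open Classical in
/-- the point `S` -/
noncomputable def S (K : Type*) [Field K] [CharZero K] : (WD (κ K ^ 3 * (κ K - 1))).Point :=
  WeierstrassCurve.Affine.Point.some _ _ (nonsing_S (K := K))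

theorem isPt_S : IsPt (κ K) (sS K) (uS K) (S K) := ⟨nonsing_S, rfl⟩

open Classical in
theorem isPt_T : IsPt (κ K) 1 1 (S K + S K) := by
  have h := isPt_S (K := K).dbl κ_ne (mul_ne_zero two_ne uS_ne)
  have h1 := c_ne (K := K)
  have h2 := A_ne (K := K)
  have h3 := B_ne (K := K)
  have e1 : 3 * sS K ^ 2 / (2 * κ K * uS K) = -3 * c K * A K / B K := by
    rw [sS, uS, κ]
    field_simp
    ring
  have e2 : κ K * (3 * sS K ^ 2 / (2 * κ K * uS K)) ^ 2 - sS K - sS K = 1 := by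
    rw [e1, κ, sS]
    field_simp
    rw [A]
    ring
  have e3 : -(uS K + 3 * sS K ^ 2 / (2 * κ K * uS K) *
      ((κ K * (3 * sS K ^ 2 / (2 * κ K * uS K)) ^ 2 - sS K - sS K) - sS K)) = 1 := by
    rw [e2, e1, uS, sS]
    field_simp
    rw [A, B]
    ring
  rw [e2] at e3
  rw [e2, e3] at h
  exact h

theorem A_sub : A K - 4 ≠ 0 := by
  have h := (A_ev (K := K)).sub (nat_ev (K := K) 4)
  have h2 : (1 : K) - ((4 : ℕ) : K) ≠ 0 := by norm_num
  have h3 := h.ne_zero h2
  exact_mod_cast h3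

open Classical in
theorem isPt_3S : IsPt (κ K) (s3 K) (u3 K) (S K + (S K + S K)) :=
  isPt_S.add isPt_T κ_ne sS_ne

open Classical in
theorem st_start : St (κ K) (S K + (S K + S K)) (S K) (start K 0) (start K 1) (start K 2) := by
  refine ⟨u3 K, uS K, isPt_3S, isPt_S, ?_, u3_ne⟩
  change uS K - 1 = (uS K - 1) / (u3 K - 1) * (u3 K - 1)
  rw [div_mul_cancel₀ _ u3_ne]

theorem good_orb (n : ℕ) : GoodPt (orb (start K) n) := orb_good (ev := ev1 K) (k := 0) start_ev n

open Classical in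
theorem st_orb (n : ℕ) : St (κ K) ((2 * n + 3) • S K) (((n + 1) ^ 2) • S K)
    (orb (start K) n 0) (orb (start K) n 1) (orb (start K) n 2) := by
  induction n with
  | zero =>
    have h := st_start (K := K)
    have e1 : (2 * 0 + 3) • S K = S K + (S K + S K) := by
      rw [show 2 * 0 + 3 = 1 + (1 + 1) by norm_num, add_smul, add_smul, one_smul]
    have e2 : ((0 + 1) ^ 2) • S K = S K := by simp
    rw [e1, e2]
    exact h
  | succ n ih =>
    have h := ih.step κ_ne isPt_T (good_orb n)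
    have e1 : (2 * (n + 1) + 3) • S K = (2 * n + 3) • S K + (S K + S K) := by
      rw [show 2 * (n + 1) + 3 = (2 * n + 3) + (1 + 1) by ring, add_smul, add_smul 1 1, one_smul]
    have e2 : ((n + 1 + 1) ^ 2) • S K = ((n + 1) ^ 2) • S K + (2 * n + 3) • S K := by
      rw [← add_smul]
      congr 1
      ring
    rw [e1, e2]
    exact h

/-- the value of a polynomial -/
noncomputable def pv (p : K[X]) : Ω1 K := algebraMap K[X] (Ω1 K) p

omit [CharZero K] in
theorem pv_inj {p q : K[X]} (h : pv p = pv q) : p = q := IsFractionRing.injective _ (Ω1 K) h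

omit [CharZero K] in
theorem pv_ne {p : K[X]} (h : p ≠ 0) : pv p ≠ 0 := fun h0 => h (pv_inj (by rw [h0]; simp [pv]))

omit [CharZero K] in
theorem am4 : algebraMap K[X] (Ω1 K) 4 = 4 := map_ofNat _ 4
omit [CharZero K] in
theorem am8 : algebraMap K[X] (Ω1 K) 8 = 8 := map_ofNat _ 8
omit [CharZero K] in
theorem am9 : algebraMap K[X] (Ω1 K) 9 = 9 := map_ofNat _ 9

omit [CharZero K] in
theorem pv_pp_succ (j : ℕ) : pv (pp K (j + 1)) = pv (pp K j) *
    (c K * pv (pp K j) ^ 3 - 8 * (1 - c K) * pv (qq K j) ^ 3) := by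
  rw [pp_succ]
  simp only [pv, c, map_mul, map_sub, map_pow, map_one, am8]

omit [CharZero K] in
theorem pv_qq_succ (j : ℕ) : pv (qq K (j + 1)) = 4 * pv (qq K j) *
    (c K * pv (pp K j) ^ 3 + (1 - c K) * pv (qq K j) ^ 3) := by
  rw [qq_succ]
  simp only [pv, c, map_mul, map_sub, map_add, map_pow, map_one, am4]

open Classical in
theorem isPt_two_pow (j : ℕ) : ∃ y, IsPt (κ K) (4 * pv (pp K j) / (A K * pv (qq K j))) y
    ((2 ^ j) • S K) := by
  induction j with
  | zero =>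
    refine ⟨uS K, ?_⟩
    have h := isPt_S (K := K)
    have e : 4 * pv (pp K 0) / (A K * pv (qq K 0)) = sS K := by
      rw [pp_zero, qq_zero, sS]
      simp [pv]
    rw [e, pow_zero, one_smul]
    exact h
  | succ j ih =>
    obtain ⟨y, hy⟩ := ih
    have h1 := c_ne (K := K)
    have h2 := A_ne (K := K)
    have h3 := κ_ne (K := K)
    have hq := pv_ne (qq_ne K j)
    have hq' := pv_ne (qq_ne K (j + 1))
    rw [pv_qq_succ] at hq'
    have hb : c K * pv (pp K j) ^ 3 + (1 - c K) * pv (qq K j) ^ 3 ≠ 0 := right_ne_zero_of_mul hq'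
    set p := pv (pp K j) with hp
    set q := pv (qq K j) with hqd
    have hcur := hy.curve h3
    have hks := κ_sub (K := K)
    have hE : κ K * y ^ 2 = 64 * (c K * p ^ 3 + (1 - c K) * q ^ 3) / (c K * A K ^ 3 * q ^ 3) := by
      have e1 : κ K * y ^ 2 = (4 * p / (A K * q)) ^ 3 + (κ K - 1) := by
        linear_combination hcur
      rw [e1, hks]
      field_simp
      ring
    have hy0 : y ≠ 0 := by
      intro h0
      rw [h0] at hE
      have h4 : (0 : Ω1 K) = 64 * (c K * p ^ 3 + (1 - c K) * q ^ 3) / (c K * A K ^ 3 * q ^ 3) := by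
        rw [← hE]; ring
      have h5 : 64 * (c K * p ^ 3 + (1 - c K) * q ^ 3) / (c K * A K ^ 3 * q ^ 3) ≠ 0 :=
        div_ne_zero (mul_ne_zero (by norm_num) hb) (mul_ne_zero (mul_ne_zero h1
          (pow_ne_zero _ h2)) (pow_ne_zero _ hq))
      exact h5 h4.symm
    have h := hy.dbl h3 (mul_ne_zero two_ne hy0)
    have e2 : κ K * (3 * (4 * p / (A K * q)) ^ 2 / (2 * κ K * y)) ^ 2 - 4 * p / (A K * q) -
        4 * p / (A K * q) = 4 * pv (pp K (j + 1)) / (A K * pv (qq K (j + 1))) := by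
      have e3 : κ K * (3 * (4 * p / (A K * q)) ^ 2 / (2 * κ K * y)) ^ 2 =
          9 * (4 * p / (A K * q)) ^ 4 / (4 * (κ K * y ^ 2)) := by
        field_simp
        ring
      rw [e3, hE, pv_pp_succ, pv_qq_succ, ← hp, ← hqd]
      have e5 : c K * p ^ 3 - 8 * (1 - c K) * q ^ 3 =
          9 * (c K * p ^ 3) - 8 * (c K * p ^ 3 + (1 - c K) * q ^ 3) := by ring
      rw [e5]
      generalize c K * p ^ 3 + (1 - c K) * q ^ 3 = E at hb
      field_simp
      ring
    refine ⟨-(y + 3 * (4 * p / (A K * q)) ^ 2 / (2 * κ K * y) *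
        (4 * pv (pp K (j + 1)) / (A K * pv (qq K (j + 1))) - 4 * p / (A K * q))), ?_⟩
    have e0 : (2 : ℕ) ^ (j + 1) = 2 ^ j + 2 ^ j := by ring
    have e4 : (2 ^ (j + 1)) • S K = (2 ^ j) • S K + (2 ^ j) • S K := by
      rw [e0, add_smul]
    rw [e4]
    rw [e2] at h
    exact h

theorem IsPt.unique {L : Type*} [Field L] {k s u s' u' : L} {P : (WD (k ^ 3 * (k - 1))).Point}
    (h : IsPt k s u P) (h' : IsPt k s' u' P) (hk : k ≠ 0) : s = s' := by
  obtain ⟨h1, rfl⟩ := h
  obtain ⟨h2, e⟩ := h'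
  simp only [WeierstrassCurve.Affine.Point.some.injEq] at e
  exact mul_left_cancel₀ hk e.1

/-- the second coordinate of the orbit -/
theorem orb_one (k : ℕ) : orb (start K) (2 ^ k - 1) 1 =
    4 * pv (pp K (2 * k)) / (A K * pv (qq K (2 * k))) := by
  classical
  obtain ⟨u, v, -, hQ, -, -⟩ := st_orb (K := K) (2 ^ k - 1)
  obtain ⟨y, hy⟩ := isPt_two_pow (K := K) (2 * k)
  have e : (2 ^ k - 1 + 1) ^ 2 = 2 ^ (2 * k) := by
    have : 1 ≤ 2 ^ k := Nat.one_le_two_pow
    rw [Nat.sub_add_cancel this, ← pow_mul, mul_comm]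
  rw [e] at hQ
  exact hQ.unique hy κ_ne

/-- the curve has some parametrization by polynomials -/
theorem exists_param (K : Type*) [Field K] [CharZero K] : ∃ (E : ℕ) (D : K[X])
    (M : Fin 4 → K[X]), D ≠ 0 ∧ (∀ i, (M i).natDegree ≤ E) ∧
    ∀ i, pv D * aff (start K) i = pv (M i) := by
  classical
  obtain ⟨⟨b, hb⟩, hint⟩ := IsLocalization.exist_integer_multiples_of_finite
    (nonZeroDivisors K[X]) (aff (start K))
  choose M hM using hint
  refine ⟨Finset.univ.sup fun i => (M i).natDegree, b, M, nonZeroDivisors.ne_zero hb,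
    fun i => Finset.le_sup (f := fun i => (M i).natDegree) (Finset.mem_univ i), fun i => ?_⟩
  have := hM i
  rw [pv, pv, this]
  simp [Algebra.smul_def]

/-- **the lower bound** -/
theorem lower (K : Type u) [Field K] [CharZero K] {f : RatMap K 3}
    (hf : Represents f (rr (gen (K := K)))) : ∃ E : ℕ, 0 < E ∧ ∀ (k : ℕ) (g : RatMap K 3), 1 ≤ k →
      f.IsIterate (2 ^ k - 1) g → 16 ^ k ≤ 4 * E * g.degree := by
  obtain ⟨E, D, M, hD, hME, hM⟩ := exists_param K
  refine ⟨E + 1, by omega, fun k g hk hg => ?_⟩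
  obtain ⟨cc, hcc, h⟩ := iterate_eval hf hg (orb (start K)) good_orb (fun n => rfl)
  have h0 := h 0
  have h2 := h 2
  have a0 : aff (orb (start K) (2 ^ k - 1)) 0 = 1 := rfl
  have a2 : aff (orb (start K) (2 ^ k - 1)) 2 = orb (start K) (2 ^ k - 1) 1 := rfl
  rw [a0, mul_one] at h0
  rw [a2, orb_one] at h2
  have hs : orb (start K) 0 = start K := rfl
  rw [hs] at h0 h2
  have key : ∀ i, pv D ^ g.degree * MvPolynomial.aeval (aff (start K)) (g.poly i) =
      pv (MvPolynomial.aeval M (g.poly i)) := by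
    intro i
    rw [← aeval_smul_of_isHomogeneous (g.homogeneous i)]
    have : (fun i => pv D * aff (start K) i) = fun i => pv (M i) := funext hM
    rw [this]
    have e : (MvPolynomial.aeval (fun i => pv (M i)) : MvPolynomial (Fin 4) K →ₐ[K] Ω1 K) =
        (IsScalarTower.toAlgHom K K[X] (Ω1 K)).comp (MvPolynomial.aeval M) := by
      apply MvPolynomial.algHom_ext
      intro i
      simp [pv]
    rw [e]
    rfl
  set G0 := MvPolynomial.aeval M (g.poly 0) with hG0
  set G2 := MvPolynomial.aeval M (g.poly 2) with hG2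
  have hD0 : pv D ^ g.degree ≠ 0 := pow_ne_zero _ (pv_ne hD)
  have k0 := key 0
  have k2 := key 2
  rw [h0] at k0
  rw [h2] at k2
  have hG0ne : G0 ≠ 0 := by
    intro h3
    rw [← hG0, h3] at k0
    have : pv (0 : K[X]) = 0 := by simp [pv]
    rw [this] at k0
    exact mul_ne_zero hD0 hcc k0
  have hA := A_ne (K := K)
  have hq := pv_ne (qq_ne K (2 * k))
  have hpoly : (9 * X - 8) * qq K (2 * k) * G2 = 4 * pp K (2 * k) * G0 := by
    apply pv_inj
    have e1 : pv ((9 * X - 8) * qq K (2 * k) * G2) = A K * pv (qq K (2 * k)) * pv G2 := by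
      simp only [pv, A, c, map_mul, map_sub, am9, am8]
    have e2 : pv (4 * pp K (2 * k) * G0) = 4 * pv (pp K (2 * k)) * pv G0 := by
      simp only [pv, map_mul, am4]
    rw [e1, e2, hG2, ← k2, hG0, ← k0]
    field_simp
  have hdvd : qq K (2 * k) ∣ G0 := by
    have h3 : qq K (2 * k) ∣ (4 * pp K (2 * k)) * G0 := by
      rw [← hpoly]
      exact ⟨(9 * X - 8) * G2, by ring⟩
    refine IsCoprime.dvd_of_dvd_mul_left ?_ h3
    refine IsCoprime.mul_right ?_ (coprime K (2 * k)).symm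
    exact (isCoprime_one_right).of_isCoprime_of_dvd_right (four_unit K).dvd
  have hdeg : G0.natDegree ≤ g.degree * E := by
    refine MvPolynomial.aeval_natDegree_le (m := g.degree) (n := E) (g.poly 0) ?_ M hME
    exact (g.homogeneous 0).totalDegree_le
  have hle := natDegree_le_of_dvd hdvd hG0ne
  obtain ⟨l, rfl⟩ : ∃ l, k = l + 1 := ⟨k - 1, by omega⟩
  have hq2 := qq_degree K (2 * l)
  have e3 : 2 * (l + 1) = 2 * l + 2 := by ring
  rw [e3] at hle
  have e4 : 16 ^ (l + 1) = 4 * 4 ^ (2 * l + 1) := by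
    rw [show (16 : ℕ) = 4 ^ 2 by norm_num, ← pow_mul]
    rw [show 2 * (l + 1) = (2 * l + 1) + 1 by ring, pow_succ]
    ring
  rw [e4]
  have h5 : 4 ^ (2 * l + 1) ≤ g.degree * E := hq2.trans (hle.trans hdeg)
  nlinarith

end Curve

end Pool.Agent.H905R3.Quartic
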