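import Mathlib
import Pool.Agent.H905R3.Curve

/-!
The upper bound for the degrees: heights of multiples of points over the function field.
-/

set_option autoImplicit false

namespace Pool.Agent.H905R3.Quartic

open MvPolynomial WeierstrassCurve WeierstrassCurve.Affine

universe u

section HB

variable {K : Type*} [Field K] {m : ℕ} {r s : FunField K m} {D E : ℕ}

theorem HB.mono (h : HB r D) (hDE : D ≤ E) : HB r E := by
  obtain ⟨p, q, a, b, c, d⟩ := h
  exact ⟨p, q, a, b, c.trans hDE, d.trans hDE⟩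

theorem HB.add (hr : HB r D) (hs : HB s E) : HB (r + s) (D + E) := by
  obtain ⟨p, q, a, b, c, d⟩ := hr
  obtain ⟨p', q', a', b', c', d'⟩ := hs
  refine ⟨p * q' + p' * q, q * q', mul_ne_zero a a', ?_, ?_, ?_⟩
  · rw [map_mul, map_add, map_mul, map_mul, ← b, ← b']; ring
  · refine (totalDegree_add _ _).trans (max_le ?_ ?_)
    · exact (totalDegree_mul _ _).trans (add_le_add c d')
    · rw [add_comm D E]
      exact (totalDegree_mul _ _).trans (add_le_add c' d)
  · exact (totalDegree_mul _ _).trans (add_le_add d d')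

theorem HB.mul (hr : HB r D) (hs : HB s E) : HB (r * s) (D + E) := by
  obtain ⟨p, q, a, b, c, d⟩ := hr
  obtain ⟨p', q', a', b', c', d'⟩ := hs
  refine ⟨p * p', q * q', mul_ne_zero a a', ?_, ?_, ?_⟩
  · rw [map_mul, map_mul, ← b, ← b']; ring
  · exact (totalDegree_mul _ _).trans (add_le_add c c')
  · exact (totalDegree_mul _ _).trans (add_le_add d d')

theorem HB.neg (hr : HB r D) : HB (-r) D := by
  obtain ⟨p, q, a, b, c, d⟩ := hr
  refine ⟨-p, q, a, ?_, ?_, d⟩
  · rw [map_neg, ← b]; ring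
  · rwa [totalDegree_neg]

theorem HB.sub (hr : HB r D) (hs : HB s E) : HB (r - s) (D + E) := by
  rw [sub_eq_add_neg]
  exact hr.add hs.neg

theorem HB.natCast (n : ℕ) : HB (n : FunField K m) 0 := by
  refine ⟨(n : MvPolynomial (Fin m) K), 1, one_ne_zero, by simp, ?_, by simp⟩
  rw [← map_natCast (C : K →+* MvPolynomial (Fin m) K) n, totalDegree_C]

theorem HB.inv (hr : HB r D) : HB r⁻¹ D := by
  by_cases h0 : r = 0
  · rw [h0, inv_zero]
    have := HB.natCast (K := K) (m := m) 0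
    rw [Nat.cast_zero] at this
    exact this.mono (Nat.zero_le _)
  · obtain ⟨p, q, a, b, c, d⟩ := hr
    have hp : p ≠ 0 := by
      rintro rfl
      rw [map_zero] at b
      rcases mul_eq_zero.mp b with h | h
      · exact h0 h
      · exact a (IsFractionRing.injective _ (FunField K m) (by rw [h, map_zero]))
    refine ⟨q, p, hp, ?_, d, c⟩
    rw [← b, inv_mul_cancel_left₀ h0]

theorem HB.div (hr : HB r D) (hs : HB s E) : HB (r / s) (D + E) := by
  rw [div_eq_mul_inv]
  exact hr.mul hs.inv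

/-- height bounds for points -/
def HP {d : FunField K m} (P : (WD d).Point) (D : ℕ) : Prop :=
  ∀ x y h, P = Point.some x y h → HB x D ∧ HB y D

theorem HP.mono {d : FunField K m} {P : (WD d).Point} (h : HP P D) (hDE : D ≤ E) : HP P E :=
  fun x y h1 h2 => ⟨(h x y h1 h2).1.mono hDE, (h x y h1 h2).2.mono hDE⟩

theorem HP.zero {d : FunField K m} : HP (0 : (WD d).Point) 0 := by
  intro x y h e
  exact absurd e.symm (Point.some_ne_zero h)

open Classical in
theorem HP.add {d : FunField K m} {P Q : (WD d).Point} (hP : HP P D) (hQ : HP Q E) :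
    HP (P + Q) (13 * (D + E)) := by
  rcases P with _ | ⟨x1, y1, h1⟩
  · change HP (0 + Q) _
    rw [zero_add]
    exact hQ.mono (by omega)
  rcases Q with _ | ⟨x2, y2, h2⟩
  · change HP (Point.some x1 y1 h1 + 0) _
    rw [add_zero]
    exact hP.mono (by omega)
  obtain ⟨a1, b1⟩ := hP x1 y1 h1 rfl
  obtain ⟨a2, b2⟩ := hQ x2 y2 h2 rfl
  by_cases hx : x1 = x2
  · subst hx
    by_cases hy : y1 = (WD d).negY x1 y2
    · rw [Point.add_of_Y_eq rfl hy]
      exact HP.zero.mono (Nat.zero_le _)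
    · have c1 := WD_eq.mp h1.1
      have c2 := WD_eq.mp h2.1
      rw [WD_negY] at hy
      have e1 : (y1 - y2) * (y1 + y2) = 0 := by linear_combination c1 - c2
      have e2 : y1 + y2 ≠ 0 := by
        intro h
        exact hy (by linear_combination h)
      have e3 : y1 = y2 := by
        rcases mul_eq_zero.mp e1 with h | h
        · exact sub_eq_zero.mp h
        · exact absurd h e2
      subst e3
      obtain ⟨h', e⟩ := dbl (h := h1) (by rwa [two_mul])
      rw [e]
      have hs : HB (3 * x1 ^ 2 / (2 * y1)) (3 * D) := by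
        have h3 := ((HB.natCast (K := K) (m := m) 3).mul (a1.mul a1)).div
          ((HB.natCast (K := K) (m := m) 2).mul b1)
        have e4 : ((3 : ℕ) : FunField K m) * (x1 * x1) / (((2 : ℕ) : FunField K m) * y1) =
            3 * x1 ^ 2 / (2 * y1) := by
          push_cast; ring
        rw [e4] at h3
        exact h3.mono (by omega)
      have hX : HB ((3 * x1 ^ 2 / (2 * y1)) ^ 2 - x1 - x1) (8 * D) := by
        rw [pow_two]
        exact (((hs.mul hs).sub a1).sub a1).mono (by omega)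
      have hY : HB (-(y1 + 3 * x1 ^ 2 / (2 * y1) * (((3 * x1 ^ 2 / (2 * y1)) ^ 2 - x1 - x1) - x1)))
          (13 * (D + E)) := by
        refine ((b1.add (hs.mul (hX.sub a1))).neg).mono ?_
        omega
      intro x y h heq
      simp only [Point.some.injEq] at heq
      obtain ⟨rfl, rfl⟩ := heq
      exact ⟨hX.mono (by omega), hY⟩
  · obtain ⟨h', e⟩ := add_ne (h1 := h1) (h2 := h2) hx
    rw [e]
    have hs : HB ((y1 - y2) / (x1 - x2)) (2 * (D + E)) :=
      ((b1.sub b2).div (a1.sub a2)).mono (by omega)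
    have hX : HB (((y1 - y2) / (x1 - x2)) ^ 2 - x1 - x2) (5 * (D + E)) := by
      rw [pow_two]
      exact (((hs.mul hs).sub a1).sub a2).mono (by omega)
    have hY := ((b1.add (hs.mul (hX.sub a1))).neg).mono
      (show D + (2 * (D + E) + (5 * (D + E) + D)) ≤ 13 * (D + E) by omega)
    intro x y h heq
    simp only [Point.some.injEq] at heq
    obtain ⟨rfl, rfl⟩ := heq
    exact ⟨hX.mono (by omega), hY⟩

open Classical in
theorem HP.smul {d : FunField K m} {P : (WD d).Point} (hP : HP P D) (k : ℕ) :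
    ∀ n, n < 2 ^ k → HP (n • P) (D * 512 ^ k) := by
  induction k with
  | zero =>
    intro n hn
    have : n = 0 := by simpa using hn
    subst this
    rw [zero_nsmul]
    exact HP.zero.mono (Nat.zero_le _)
  | succ k ih =>
    intro n hn
    have h1 := ih (n / 2) (by rw [pow_succ] at hn; omega)
    have h2 := h1.add h1
    have hk : 1 ≤ 512 ^ k := Nat.one_le_pow _ _ (by norm_num)
    have hD : D ≤ D * 512 ^ k := Nat.le_mul_of_pos_right _ (by omega)
    have h3 : HP ((n % 2) • P) D := by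
      rcases Nat.mod_two_eq_zero_or_one n with h | h
      · rw [h, zero_nsmul]
        exact HP.zero.mono (Nat.zero_le _)
      · rw [h, one_nsmul]
        exact hP
    have e : n • P = ((n / 2) • P + (n / 2) • P) + (n % 2) • P := by
      rw [← add_smul, ← add_smul]
      congr 1
      omega
    rw [e]
    refine (h2.add h3).mono ?_
    rw [pow_succ]
    nlinarith

end HB

/-! ### the data of a triple -/

section Data

variable {L : Type*} [Field L]

/-- `κ (u - 1)` -/
def dB (s t m : L) : L := ((s ^ 3 - 1) - rA s t m) / 2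
/-- the parameter `κ` of a triple -/
def dκ (s t m : L) : L := dB s t m ^ 2 / rA s t m
/-- the coordinate `u` -/
def du (s t m : L) : L := 1 + rA s t m / dB s t m
/-- the coordinate `v` -/
def dv (s t m : L) : L := 1 + m * (rA s t m / dB s t m)

/-- the triple comes from a pair of points -/
structure Fine (s t m : L) : Prop where
  two : (2 : L) ≠ 0
  m0 : m ≠ 0
  m1 : 1 - m ≠ 0
  A0 : rA s t m ≠ 0
  B0 : dB s t m ≠ 0
  u0 : du s t m ≠ 0
  v0 : dv s t m ≠ 0

theorem Fine.κ0 {s t m : L} (h : Fine s t m) : dκ s t m ≠ 0 :=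
  div_ne_zero (pow_ne_zero _ h.B0) h.A0

theorem Fine.curveP {s t m : L} (h : Fine s t m) :
    dκ s t m * (du s t m ^ 2 - 1) = s ^ 3 - 1 := by
  have hA := h.A0
  have hB := h.B0
  have h2 := h.two
  have e : 2 * dB s t m = s ^ 3 - 1 - rA s t m := by
    rw [dB]; field_simp
  rw [dκ, du]
  field_simp
  linear_combination rA s t m * e

theorem Fine.curveQ {s t m : L} (h : Fine s t m) :
    dκ s t m * (dv s t m ^ 2 - 1) = t ^ 3 - 1 := by
  have hA := h.A0
  have hB := h.B0
  have h2 := h.two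
  have e : 2 * dB s t m = s ^ 3 - 1 - rA s t m := by
    rw [dB]; field_simp
  have eA : rA s t m * (m * (1 - m)) = (1 - t ^ 3) - m * (1 - s ^ 3) := by
    rw [rA, div_mul_cancel₀ _ (mul_ne_zero h.m0 h.m1)]
  rw [dκ, dv]
  field_simp
  linear_combination rA s t m * (m * e - eA)

open Classical in
theorem Fine.st {s t m : L} (h : Fine s t m) :
    ∃ P Q : (WD (dκ s t m ^ 3 * (dκ s t m - 1))).Point,
      IsPt (dκ s t m) s (du s t m) P ∧ IsPt (dκ s t m) t (dv s t m) Q ∧
      St (dκ s t m) P Q s t m := by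
  have hκ := h.κ0
  have n1 : (WD (dκ s t m ^ 3 * (dκ s t m - 1))).Nonsingular (dκ s t m * s)
      (dκ s t m ^ 2 * du s t m) :=
    WD_nonsing h.two (by linear_combination dκ s t m ^ 3 * h.curveP)
      (mul_ne_zero (pow_ne_zero _ hκ) h.u0)
  have n2 : (WD (dκ s t m ^ 3 * (dκ s t m - 1))).Nonsingular (dκ s t m * t)
      (dκ s t m ^ 2 * dv s t m) :=
    WD_nonsing h.two (by linear_combination dκ s t m ^ 3 * h.curveQ)
      (mul_ne_zero (pow_ne_zero _ hκ) h.v0)
  have i1 : IsPt (dκ s t m) s (du s t m) (Point.some _ _ n1) := ⟨n1, rfl⟩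
  have i2 : IsPt (dκ s t m) t (dv s t m) (Point.some _ _ n2) := ⟨n2, rfl⟩
  refine ⟨_, _, i1, i2, du s t m, dv s t m, i1, i2, ?_, ?_⟩
  · rw [dv, du]; ring
  · rw [du, add_sub_cancel_left]
    exact div_ne_zero h.A0 h.B0

theorem isPt_one {κ : L} (h2 : (2 : L) ≠ 0) (hκ : κ ≠ 0) :
    ∃ T : (WD (κ ^ 3 * (κ - 1))).Point, IsPt κ 1 1 T :=
  ⟨Point.some _ _ (WD_nonsing h2 (x := κ * 1) (y := κ ^ 2 * 1) (by ring)
    (by rw [mul_one]; exact pow_ne_zero _ hκ)), _, rfl⟩

end Data

section EvData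

variable {R Ω k : Type*} [CommRing R] [IsDomain R] [Field Ω] [Algebra R Ω] [IsFractionRing R Ω]
  [Field k] {ev : R →+* k} {s t m : Ω} {σ θ μ : k}

omit [IsDomain R] in
theorem EvTo.two : EvTo ev (2 : Ω) 2 := by
  have := EvTo.natCast (ev := ev) (Ω := Ω) 2
  exact_mod_cast this

theorem EvTo.dB (hs : EvTo ev s σ) (ht : EvTo ev t θ) (hm : EvTo ev m μ) (h : Fine σ θ μ) :
    EvTo ev (dB s t m) (dB σ θ μ) :=
  (((hs.pow 3).sub EvTo.one).sub (EvTo.rA hs ht hm h.m0 h.m1)).div EvTo.two h.two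

theorem EvTo.dκ (hs : EvTo ev s σ) (ht : EvTo ev t θ) (hm : EvTo ev m μ) (h : Fine σ θ μ) :
    EvTo ev (dκ s t m) (dκ σ θ μ) :=
  ((EvTo.dB hs ht hm h).pow 2).div (EvTo.rA hs ht hm h.m0 h.m1) h.A0

theorem EvTo.du (hs : EvTo ev s σ) (ht : EvTo ev t θ) (hm : EvTo ev m μ) (h : Fine σ θ μ) :
    EvTo ev (du s t m) (du σ θ μ) :=
  EvTo.one.add ((EvTo.rA hs ht hm h.m0 h.m1).div (EvTo.dB hs ht hm h) h.B0)

theorem EvTo.dv (hs : EvTo ev s σ) (ht : EvTo ev t θ) (hm : EvTo ev m μ) (h : Fine σ θ μ) :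
    EvTo ev (dv s t m) (dv σ θ μ) :=
  EvTo.one.add (hm.mul ((EvTo.rA hs ht hm h.m0 h.m1).div (EvTo.dB hs ht hm h) h.B0))

theorem Fine.of_ev (hs : EvTo ev s σ) (ht : EvTo ev t θ) (hm : EvTo ev m μ) (h : Fine σ θ μ) :
    Fine s t m where
  two := (EvTo.two (ev := ev) (Ω := Ω)).ne_zero h.two
  m0 := hm.ne_zero h.m0
  m1 := (EvTo.one.sub hm).ne_zero h.m1
  A0 := (EvTo.rA hs ht hm h.m0 h.m1).ne_zero h.A0
  B0 := (EvTo.dB hs ht hm h).ne_zero h.B0
  u0 := (EvTo.du hs ht hm h).ne_zero h.u0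
  v0 := (EvTo.dv hs ht hm h).ne_zero h.v0

variable {L L' : Type*} [Field L] [Field L'] (φ : L →+* L')

theorem map_dB (s t m : L) : φ (Quartic.dB s t m) = Quartic.dB (φ s) (φ t) (φ m) := by
  have h2 : φ 2 = 2 := map_ofNat φ 2
  simp [Quartic.dB, map_rA, h2]
theorem map_dκ (s t m : L) : φ (Quartic.dκ s t m) = Quartic.dκ (φ s) (φ t) (φ m) := by
  simp [Quartic.dκ, map_rA, map_dB]
theorem map_du (s t m : L) : φ (Quartic.du s t m) = Quartic.du (φ s) (φ t) (φ m) := by
  simp [Quartic.du, map_rA, map_dB]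
theorem map_dv (s t m : L) : φ (Quartic.dv s t m) = Quartic.dv (φ s) (φ t) (φ m) := by
  simp [Quartic.dv, map_rA, map_dB]

theorem Fine.map {s t m : L} (h : Fine s t m) : Fine (φ s) (φ t) (φ m) where
  two := by have := (map_ne_zero φ).mpr h.two; rwa [map_ofNat] at this
  m0 := (map_ne_zero φ).mpr h.m0
  m1 := by have := (map_ne_zero φ).mpr h.m1; rwa [map_sub, map_one] at this
  A0 := by have := (map_ne_zero φ).mpr h.A0; rwa [map_rA] at this
  B0 := by have := (map_ne_zero φ).mpr h.B0; rwa [map_dB] at this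
  u0 := by have := (map_ne_zero φ).mpr h.u0; rwa [map_du] at this
  v0 := by have := (map_ne_zero φ).mpr h.v0; rwa [map_dv] at this

end EvData

theorem spn_zero : spn 0 = ![4 / 9, 4, -189 / 19] := by
  rw [spn, sp]
  norm_num

theorem fine_zero : Fine (spn 0 0) (spn 0 1) (spn 0 2) := by
  rw [spn_zero]
  change Fine (4 / 9 : ℚ) 4 (-189 / 19)
  constructor
  all_goals norm_num [rA, dB, du, dv]

/-! ### the generic orbit -/

section Generic

variable {K : Type u} [Field K] [CharZero K]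

theorem gen_fine : Fine (gen (K := K) 0) (gen (K := K) 1) (gen (K := K) 2) :=
  Fine.of_ev (gen_ev (spK K 0) 0) (gen_ev (spK K 0) 1) (gen_ev (spK K 0) 2)
    (fine_zero.map (Rat.castHom K))

theorem gen_good (n : ℕ) : GoodPt (orb (gen (K := K)) n) := orb_good (k := 0) (gen_ev (spK K 0)) n

/-- triangular numbers -/
def tri : ℕ → ℕ
  | 0 => 0
  | (n + 1) => tri n + n

theorem tri_le (n : ℕ) : tri n ≤ n ^ 2 := by
  induction n with
  | zero => exact le_rfl
  | succ n ih => rw [tri]; nlinarith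

omit [CharZero K] in
open Classical in
theorem exists_HP {d : FunField K 3} (P : (WD d).Point) : ∃ D, HP P D := by
  rcases P with _ | ⟨x, y, h⟩
  · exact ⟨0, HP.zero⟩
  · obtain ⟨D1, h1⟩ := exists_HB x
    obtain ⟨D2, h2⟩ := exists_HB y
    refine ⟨D1 + D2, ?_⟩
    intro x' y' h' e
    simp only [Point.some.injEq] at e
    obtain ⟨rfl, rfl⟩ := e
    exact ⟨h1.mono (by omega), h2.mono (by omega)⟩

omit [CharZero K] in
open Classical in
theorem IsPt.HB {κ s u : FunField K 3} {P : (WD (κ ^ 3 * (κ - 1))).Point} {D E : ℕ}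
    (h : IsPt κ s u P) (hκ : κ ≠ 0) (hD : HB κ D) (hP : HP P E) :
    HB s (E + D) ∧ HB u (E + 2 * D) := by
  obtain ⟨h1, e⟩ := h
  obtain ⟨h2, h3⟩ := hP _ _ h1 e
  constructor
  · have := h2.div hD
    rwa [mul_div_cancel_left₀ _ hκ] at this
  · have := h3.div (hD.mul hD)
    rw [← pow_two, mul_div_cancel_left₀ _ (pow_ne_zero 2 hκ)] at this
    exact this.mono (by omega)

open Classical in
/-- degree bounds for the generic orbit -/
theorem orb_HB_aux {κ : FunField K 3} (hκ : κ ≠ 0) {P Q T : (WD (κ ^ 3 * (κ - 1))).Point}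
    (hT : IsPt κ 1 1 T) (hst : St κ P Q (gen 0) (gen 1) (gen 2)) :
    ∃ C : ℕ, ∀ n k : ℕ, n < 2 ^ k → ∀ i, HB (orb (gen (K := K)) n i) (C * 512 ^ (2 * k)) := by
  have hSt : ∀ n : ℕ, St κ (P + n • T) (Q + n • P + tri n • T) (orb gen n 0) (orb gen n 1)
      (orb gen n 2) := by
    intro n
    induction n with
    | zero =>
      rw [tri, zero_nsmul, zero_nsmul, add_zero, add_zero, add_zero]
      exact hst
    | succ n ih =>
      have h := ih.step hκ hT (gen_good n)
      have e1 : P + (n + 1) • T = P + n • T + T := by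
        rw [add_nsmul, one_nsmul]; abel
      have e2 : Q + (n + 1) • P + tri (n + 1) • T = (Q + n • P + tri n • T) + (P + n • T) := by
        rw [tri, add_nsmul, add_nsmul, one_nsmul]; abel
      rw [e1, e2]
      exact h
  obtain ⟨D1, hD1⟩ := exists_HP P
  obtain ⟨D2, hD2⟩ := exists_HP Q
  obtain ⟨D3, hD3⟩ := exists_HP T
  obtain ⟨D4, hD4⟩ := exists_HB κ
  set D := D1 + D2 + D3 + D4 with hD
  have hP : HP P D := hD1.mono (by omega)
  have hQ : HP Q D := hD2.mono (by omega)
  have hTD : HP T D := hD3.mono (by omega)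
  have hκD : HB κ D := hD4.mono (by omega)
  refine ⟨500 * D, fun n k hn => ?_⟩
  have hM : 1 ≤ 512 ^ k := Nat.one_le_pow _ _ (by norm_num)
  have hM2 : 512 ^ k ≤ 512 ^ (2 * k) := Nat.pow_le_pow_right (by norm_num) (by omega)
  generalize hM' : 512 ^ k = M at hM hM2
  generalize hN' : 512 ^ (2 * k) = N at hM2
  have hPn : HP (P + n • T) (26 * (D * M)) := by
    refine (hP.add (hTD.smul k n hn)).mono ?_
    rw [hM']
    nlinarith
  have hQn : HP (Q + n • P + tri n • T) (351 * (D * N)) := by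
    have ht : tri n < 2 ^ (2 * k) := by
      refine (tri_le n).trans_lt ?_
      rw [mul_comm, pow_mul]
      exact Nat.pow_lt_pow_left hn (by norm_num)
    refine ((hQ.add (hP.smul k n hn)).add (hTD.smul (2 * k) (tri n) ht)).mono ?_
    rw [hM', hN']
    nlinarith
  obtain ⟨u, v, i1, i2, e, hu⟩ := hSt n
  obtain ⟨b1, b2⟩ := i1.HB hκ hκD hPn
  obtain ⟨b3, b4⟩ := i2.HB hκ hκD hQn
  have h1 := HB.natCast (K := K) (m := 3) 1
  rw [Nat.cast_one] at h1
  have b5 : HB (orb (gen (K := K)) n 2) (500 * D * N) := by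
    have e' : orb (gen (K := K)) n 2 = (v - 1) / (u - 1) := by
      rw [e, mul_div_cancel_right₀ _ hu]
    rw [e']
    refine ((b4.sub h1).div (b2.sub h1)).mono ?_
    nlinarith
  intro i
  fin_cases i
  · exact b1.mono (by nlinarith)
  · exact b3.mono (by nlinarith)
  · exact b5

/-- degree bounds for the generic orbit -/
theorem orb_HB : ∃ C : ℕ, ∀ n k : ℕ, n < 2 ^ k → ∀ i, HB (orb (gen (K := K)) n i)
    (C * 512 ^ (2 * k)) := by
  have hf := gen_fine (K := K)
  obtain ⟨P, Q, -, -, hst⟩ := hf.st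
  obtain ⟨T, hT⟩ := isPt_one hf.two hf.κ0
  exact orb_HB_aux hf.κ0 hT hst

/-- **the upper bound** -/
theorem upper_bound {f : RatMap K 3} (hf : Represents f (rr (gen (K := K)))) :
    ∃ C : ℕ, ∀ n k : ℕ, n < 2 ^ k → ∃ g : RatMap K 3, f.IsIterate n g ∧
      g.degree ≤ C * 512 ^ (2 * k) := by
  obtain ⟨C, hC⟩ := orb_HB (K := K)
  refine ⟨3 * C, fun n k hn => ?_⟩
  obtain ⟨g, hg, hd⟩ := upper hf (orb gen) rfl gen_good (fun n => rfl) n _ (hC n k hn)
  exact ⟨g, hg, by rwa [mul_assoc]⟩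

end Generic

end Pool.Agent.H905R3.Quartic
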