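import Mathlib
import Pool.Agent.H905R3.Upper

/-!
The map is dominant.
-/

set_option autoImplicit false

namespace Pool.Agent.H905R3.Quartic

open MvPolynomial WeierstrassCurve WeierstrassCurve.Affine

universe u

section Inverse

variable {L : Type*} [Field L]

/-- first coordinate of the preimage -/
def ws (κ s u : L) : L := κ * ((u - -1) / (s - 1)) ^ 2 - s - 1
/-- auxiliary coordinate of the preimage -/
def wu (κ s u : L) : L := -(u + (u - -1) / (s - 1) * (ws κ s u - s))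
/-- second coordinate of the preimage -/
def wt (κ s t u v : L) : L :=
  κ * ((v - -wu κ s u) / (t - ws κ s u)) ^ 2 - t - ws κ s u
/-- auxiliary coordinate of the preimage -/
def wv (κ s t u v : L) : L :=
  -(v + (v - -wu κ s u) / (t - ws κ s u) * (wt κ s t u v - t))
/-- third coordinate of the preimage -/
def wm (κ s t u v : L) : L := (wv κ s t u v - 1) / (wu κ s u - 1)

theorem IsPt.unique' {k s u s' u' : L} {P : (WD (k ^ 3 * (k - 1))).Point}
    (h : IsPt k s u P) (h' : IsPt k s' u' P) (hk : k ≠ 0) : s = s' ∧ u = u' := by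
  obtain ⟨h1, rfl⟩ := h
  obtain ⟨h2, e⟩ := h'
  simp only [Point.some.injEq] at e
  exact ⟨mul_left_cancel₀ hk e.1, mul_left_cancel₀ (pow_ne_zero 2 hk) e.2⟩

theorem IsPt.neg {k s u : L} {P : (WD (k ^ 3 * (k - 1))).Point} (h : IsPt k s u P) :
    IsPt k s (-u) (-P) := by
  obtain ⟨h1, rfl⟩ := h
  have e : (WD (k ^ 3 * (k - 1))).negY (k * s) (k ^ 2 * u) = k ^ 2 * -u := by
    rw [WD_negY]; ring
  have h2 : (WD (k ^ 3 * (k - 1))).Nonsingular (k * s) (k ^ 2 * -u) := by
    have := (nonsingular_neg (W' := WD (k ^ 3 * (k - 1))) (k * s) (k ^ 2 * u)).mpr h1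
    rwa [e] at this
  refine ⟨h2, ?_⟩
  rw [Point.neg_some]
  simp only [Point.some.injEq]
  exact ⟨trivial, e⟩

open Classical in
theorem preimage {κ s t m u v : L} {P Q T : (WD (κ ^ 3 * (κ - 1))).Point} (hκ : κ ≠ 0)
    (hP : IsPt κ s u P) (hQ : IsPt κ t v Q) (hT : IsPt κ 1 1 T) (hm : v - 1 = m * (u - 1))
    (hu : u - 1 ≠ 0) (hs : s - 1 ≠ 0) (ht : t - ws κ s u ≠ 0) (hwu : wu κ s u - 1 ≠ 0)
    (hg : Good (ws κ s u) (wt κ s t u v) (wm κ s t u v)) :
    rs (ws κ s u) (wt κ s t u v) (wm κ s t u v) = s ∧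
    rt (ws κ s u) (wt κ s t u v) (wm κ s t u v) = t ∧
    rm (ws κ s u) (wt κ s t u v) (wm κ s t u v) = m := by
  have h1 := hP.add hT.neg hκ hs
  have h2 := hQ.add h1.neg hκ ht
  have h3 : St κ (P + -T) (Q + -(P + -T)) (ws κ s u) (wt κ s t u v) (wm κ s t u v) := by
    refine ⟨wu κ s u, wv κ s t u v, h1, h2, ?_, hwu⟩
    rw [wm, div_mul_cancel₀ _ hwu]
  obtain ⟨u', v', h4, h5, h6, h7⟩ := h3.step hκ hT hg
  have e1 : P + -T + T = P := by abel
  have e2 : Q + -(P + -T) + (P + -T) = Q := by abel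
  rw [e1] at h4
  rw [e2] at h5
  obtain ⟨a1, rfl⟩ := h4.unique' hP hκ
  obtain ⟨a2, rfl⟩ := h5.unique' hQ hκ
  refine ⟨a1, a2, ?_⟩
  rw [hm] at h6
  exact (mul_right_cancel₀ hu h6).symm

end Inverse

section EvInverse

variable {R Ω k : Type*} [CommRing R] [IsDomain R] [Field Ω] [Algebra R Ω] [IsFractionRing R Ω]
  [Field k] {ev : R →+* k} {κ s t u v : Ω} {κ' σ θ υ ν : k}

theorem EvTo.ws (hκ : EvTo ev κ κ') (hs : EvTo ev s σ) (hu : EvTo ev u υ) (h : σ - 1 ≠ 0) :
    EvTo ev (ws κ s u) (ws κ' σ υ) :=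
  ((hκ.mul (((hu.sub EvTo.one.neg).div (hs.sub EvTo.one) h).pow 2)).sub hs).sub EvTo.one

theorem EvTo.wu (hκ : EvTo ev κ κ') (hs : EvTo ev s σ) (hu : EvTo ev u υ) (h : σ - 1 ≠ 0) :
    EvTo ev (wu κ s u) (wu κ' σ υ) :=
  (hu.add (((hu.sub EvTo.one.neg).div (hs.sub EvTo.one) h).mul
    ((EvTo.ws hκ hs hu h).sub hs))).neg

theorem EvTo.wt (hκ : EvTo ev κ κ') (hs : EvTo ev s σ) (ht : EvTo ev t θ) (hu : EvTo ev u υ)
    (hv : EvTo ev v ν) (h : σ - 1 ≠ 0) (h' : θ - Quartic.ws κ' σ υ ≠ 0) :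
    EvTo ev (wt κ s t u v) (wt κ' σ θ υ ν) :=
  ((hκ.mul (((hv.sub (EvTo.wu hκ hs hu h).neg).div (ht.sub (EvTo.ws hκ hs hu h)) h').pow 2)).sub
    ht).sub (EvTo.ws hκ hs hu h)

theorem EvTo.wv (hκ : EvTo ev κ κ') (hs : EvTo ev s σ) (ht : EvTo ev t θ) (hu : EvTo ev u υ)
    (hv : EvTo ev v ν) (h : σ - 1 ≠ 0) (h' : θ - Quartic.ws κ' σ υ ≠ 0) :
    EvTo ev (wv κ s t u v) (wv κ' σ θ υ ν) :=
  (hv.add (((hv.sub (EvTo.wu hκ hs hu h).neg).div (ht.sub (EvTo.ws hκ hs hu h)) h').mul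
    ((EvTo.wt hκ hs ht hu hv h h').sub ht))).neg

theorem EvTo.wm (hκ : EvTo ev κ κ') (hs : EvTo ev s σ) (ht : EvTo ev t θ) (hu : EvTo ev u υ)
    (hv : EvTo ev v ν) (h : σ - 1 ≠ 0) (h' : θ - Quartic.ws κ' σ υ ≠ 0)
    (h'' : Quartic.wu κ' σ υ - 1 ≠ 0) :
    EvTo ev (wm κ s t u v) (wm κ' σ θ υ ν) :=
  ((EvTo.wv hκ hs ht hu hv h h').sub EvTo.one).div ((EvTo.wu hκ hs hu h).sub EvTo.one) h''

end EvInverse

section Special

variable {K : Type u} [Field K] [CharZero K]

theorem spn_one : spn 1 = ![4 / 25, 1 / 4, 875 / 936] := by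
  rw [spn, sp]
  norm_num

theorem fine_one : Fine (spn 1 0) (spn 1 1) (spn 1 2) := by
  rw [spn_one]
  change Fine (4 / 25 : ℚ) (1 / 4) (875 / 936)
  constructor
  all_goals norm_num [rA, dB, du, dv]

theorem val_κ : dκ (spn 1 0) (spn 1 1) (spn 1 2) = 1 := by
  rw [spn_one]
  change dκ (4 / 25 : ℚ) (1 / 4) (875 / 936) = 1
  norm_num [rA, dB, dκ]

theorem val_u : du (spn 1 0) (spn 1 1) (spn 1 2) = 8 / 125 := by
  rw [spn_one]
  change du (4 / 25 : ℚ) (1 / 4) (875 / 936) = 8 / 125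
  norm_num [rA, dB, du]

theorem val_v : dv (spn 1 0) (spn 1 1) (spn 1 2) = 1 / 8 := by
  rw [spn_one]
  change dv (4 / 25 : ℚ) (1 / 4) (875 / 936) = 1 / 8
  norm_num [rA, dB, dv]

theorem spK_one_zero : spK K 1 0 = 4 / 25 := by
  rw [spK, spn_one]
  simp

theorem spK_one_one : spK K 1 1 = 1 / 4 := by
  rw [spK, spn_one]
  simp

theorem spK_zero_zero : spK K 0 0 = 4 / 9 := by
  rw [spK, spn_zero]
  simp

theorem spK_zero_one : spK K 0 1 = 4 := by
  rw [spK, spn_zero]
  simp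

theorem spK_zero_two : spK K 0 2 = -189 / 19 := by
  rw [spK, spn_zero]
  simp

theorem valK_κ : dκ (spK K 1 0) (spK K 1 1) (spK K 1 2) = 1 := by
  have h := map_dκ (Rat.castHom K) (spn 1 0) (spn 1 1) (spn 1 2)
  rw [val_κ, map_one] at h
  exact h.symm

theorem valK_u : du (spK K 1 0) (spK K 1 1) (spK K 1 2) = 8 / 125 := by
  have h := map_du (Rat.castHom K) (spn 1 0) (spn 1 1) (spn 1 2)
  rw [val_u] at h
  rw [spK, spK, spK, ← h]
  simp

theorem valK_v : dv (spK K 1 0) (spK K 1 1) (spK K 1 2) = 1 / 8 := by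
  have h := map_dv (Rat.castHom K) (spn 1 0) (spn 1 1) (spn 1 2)
  rw [val_v] at h
  rw [spK, spK, spK, ← h]
  simp

theorem val_ws : ws (1 : K) (4 / 25) (8 / 125) = 4 / 9 := by
  rw [ws]; norm_num

theorem val_wu : wu (1 : K) (4 / 25) (8 / 125) = 8 / 27 := by
  rw [wu, val_ws]; norm_num

theorem val_wt : wt (1 : K) (4 / 25) (1 / 4) (8 / 125) (1 / 8) = 4 := by
  rw [wt, val_wu, val_ws]; norm_num

theorem val_wv : wv (1 : K) (4 / 25) (1 / 4) (8 / 125) (1 / 8) = 8 := by
  rw [wv, val_wt, val_wu, val_ws]; norm_num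

theorem val_wm : wm (1 : K) (4 / 25) (1 / 4) (8 / 125) (1 / 8) = -189 / 19 := by
  rw [wm, val_wv, val_wu]; norm_num

open Classical in
/-- a preimage of a generic point -/
theorem exists_preimage {R Ω : Type*} [CommRing R] [IsDomain R] [Field Ω] [Algebra R Ω]
    [IsFractionRing R Ω] {ev : R →+* K} {a' : Fin 3 → Ω} (h : ∀ i, EvTo ev (a' i) (spK K 1 i)) :
    ∃ a : Fin 3 → Ω, GoodPt a ∧ rr a = a' := by
  have hfK := (fine_one).map (Rat.castHom K)
  have hf : Fine (a' 0) (a' 1) (a' 2) := Fine.of_ev (h 0) (h 1) (h 2) hfK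
  have hκ := EvTo.dκ (h 0) (h 1) (h 2) hfK
  have hu := EvTo.du (h 0) (h 1) (h 2) hfK
  have hv := EvTo.dv (h 0) (h 1) (h 2) hfK
  rw [valK_κ] at hκ
  rw [valK_u] at hu
  rw [valK_v] at hv
  have hs := h 0
  have ht := h 1
  rw [spK_one_zero] at hs
  rw [spK_one_one] at ht
  have n1 : (4 / 25 : K) - 1 ≠ 0 := by norm_num
  have n2 : (1 / 4 : K) - ws 1 (4 / 25) (8 / 125) ≠ 0 := by rw [val_ws]; norm_num
  have n3 : wu (1 : K) (4 / 25) (8 / 125) - 1 ≠ 0 := by rw [val_wu]; norm_num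
  have e0 := EvTo.ws hκ hs hu n1
  have e1 := EvTo.wt hκ hs ht hu hv n1 n2
  have e2 := EvTo.wm hκ hs ht hu hv n1 n2 n3
  have ht' := (ht.sub e0).ne_zero n2
  have hwu := ((EvTo.wu hκ hs hu n1).sub EvTo.one).ne_zero n3
  have hs' := (hs.sub EvTo.one).ne_zero n1
  rw [val_ws] at e0
  rw [val_wt] at e1
  rw [val_wm] at e2
  obtain ⟨P, Q, hP, hQ, hst⟩ := hf.st
  obtain ⟨T, hT⟩ := isPt_one hf.two hf.κ0
  have hκ0 := hf.κ0
  have hm1 : dv (a' 0) (a' 1) (a' 2) - 1 = a' 2 * (du (a' 0) (a' 1) (a' 2) - 1) := by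
    rw [dv, du]; ring
  have hu1 : du (a' 0) (a' 1) (a' 2) - 1 ≠ 0 := by
    rw [du, add_sub_cancel_left]
    exact div_ne_zero hf.A0 hf.B0
  generalize dκ (a' 0) (a' 1) (a' 2) = κ at *
  generalize hud : du (a' 0) (a' 1) (a' 2) = u at *
  generalize hvd : dv (a' 0) (a' 1) (a' 2) = v at *
  let a : Fin 3 → Ω := ![ws κ (a' 0) u, wt κ (a' 0) (a' 1) u v, wm κ (a' 0) (a' 1) u v]
  have ha : ∀ i, EvTo ev (a i) (spK K 0 i) := by
    intro i
    fin_cases i
    · change EvTo ev (ws κ (a' 0) u) (spK K 0 0)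
      rw [spK_zero_zero]
      exact e0
    · change EvTo ev (wt κ (a' 0) (a' 1) u v) (spK K 0 1)
      rw [spK_zero_one]
      exact e1
    · change EvTo ev (wm κ (a' 0) (a' 1) u v) (spK K 0 2)
      rw [spK_zero_two]
      exact e2
  have hgood : GoodPt a := GoodPt.of_ev ha (spK_good K 0)
  obtain ⟨r0, r1, r2⟩ := preimage hκ0 hP hQ hT hm1 hu1 hs' ht' hwu hgood
  refine ⟨a, hgood, ?_⟩
  funext i
  fin_cases i
  · exact r0
  · exact r1
  · exact r2

end Special

section Dominant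

variable {K : Type u} [Field K] [CharZero K]

theorem cancel_aux {L : Type*} [Field L] {a b c : L} (hc : c ≠ 0) (ha : a ≠ 0) :
    a / c * (c * (b / a)) = b := by
  field_simp

/-- the map is dominant -/
theorem dominant {f : RatMap K 3} (hf : Represents f (rr (gen (K := K)))) (hd : 0 < f.degree) :
    f.Dominant := by
  unfold RatMap.Dominant
  rw [algebraicIndependent_iff]
  intro P hP
  let F := FractionRing (MvPolynomial (Fin 4) K)
  let Ω := AlgebraicClosure F
  let T : Fin 4 → F := fun i => algebraMap (MvPolynomial (Fin 4) K) F (X i)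
  let TT : Fin 4 → Ω := fun i => algebraMap (MvPolynomial (Fin 4) K) Ω (X i)
  have hinjF : Function.Injective (algebraMap (MvPolynomial (Fin 4) K) F) :=
    IsFractionRing.injective _ _
  have htower : ∀ p, algebraMap (MvPolynomial (Fin 4) K) Ω p =
      algebraMap F Ω (algebraMap (MvPolynomial (Fin 4) K) F p) := fun p => by
    rw [← IsScalarTower.algebraMap_apply (MvPolynomial (Fin 4) K) F Ω]
  have hinj : Function.Injective (algebraMap (MvPolynomial (Fin 4) K) Ω) := by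
    intro p q h
    rw [htower, htower] at h
    exact hinjF ((algebraMap F Ω).injective h)
  have hT0 : T 0 ≠ 0 := by
    intro h
    have hX : (X 0 : MvPolynomial (Fin 4) K) ≠ 0 := X_ne_zero 0
    exact hX (hinjF (by rw [map_zero]; exact h))
  have hTT0 : TT 0 ≠ 0 := by
    intro h
    have hX : (X 0 : MvPolynomial (Fin 4) K) ≠ 0 := X_ne_zero 0
    exact hX (hinj (by rw [map_zero]; exact h))
  have hTTT : ∀ i, algebraMap F Ω (T i) = TT i := fun i => (htower (X i)).symm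
  let ev : MvPolynomial (Fin 4) K →+* K := (aeval (aff (spK K 1)) :
    MvPolynomial (Fin 4) K →ₐ[K] K).toRingHom
  have hTev : ∀ i, EvTo ev (T i) (aff (spK K 1) i) := by
    intro i
    have := EvTo.ofRing (ev := ev) (Ω := F) (X i)
    simpa [ev] using this
  obtain ⟨a, hgood, hra⟩ := exists_preimage (K := K) (ev := ev) (a' := fun i => T i.succ / T 0)
    (fun i => by
      have h1 := (hTev i.succ).div (hTev 0) (by simp [aff])
      simpa [aff] using h1)
  obtain ⟨c, hc, h⟩ := hf.eval (L := Ω) (a := fun i => algebraMap F Ω (a i))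
    (b := rr fun i => algebraMap F Ω (a i)) (fun i => rr_ev (hgood.map (algebraMap F Ω)) i)
  have hb : ∀ i, aff (rr fun i => algebraMap F Ω (a i)) i = TT i / TT 0 := by
    intro i
    rw [← map_rr, hra]
    refine Fin.cases ?_ (fun j => ?_) i
    · simp [aff, div_self hTT0]
    · simp only [aff, Fin.cons_succ, map_div₀, hTTT]
  obtain ⟨z, hz⟩ := IsAlgClosed.exists_pow_nat_eq (TT 0 / c) hd
  let pt : Fin 4 → Ω := fun i => z * aff (fun i => algebraMap F Ω (a i)) i
  have hpt : ∀ i, aeval pt (f.poly i) = TT i := by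
    intro i
    rw [aeval_smul_of_isHomogeneous (f.homogeneous i), hz, h, hb]
    exact cancel_aux hc hTT0
  have h1 : aeval pt (aeval f.poly P) = algebraMap (MvPolynomial (Fin 4) K) Ω P := by
    have hcomp : ((aeval pt).comp (aeval f.poly) : MvPolynomial (Fin 4) K →ₐ[K] Ω) =
        IsScalarTower.toAlgHom K (MvPolynomial (Fin 4) K) Ω := by
      apply MvPolynomial.algHom_ext
      intro i
      simp only [AlgHom.comp_apply, aeval_X]
      rw [hpt i]
      rfl
    exact DFunLike.congr_fun hcomp P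
  apply hinj
  rw [← h1]
  have : aeval f.poly P = 0 := hP
  rw [this, map_zero, map_zero]

omit [CharZero K] in
/-- the iterates of a dominant map have algebraically independent coordinates -/
theorem subst_indep {f : RatMap K 3} (hf : f.Dominant) (n : ℕ) :
    AlgebraicIndependent K (f.subst n) := by
  induction n with
  | zero =>
    rw [AlgebraicIndependent]
    have : (aeval (f.subst 0) : MvPolynomial (Fin 4) K →ₐ[K] MvPolynomial (Fin 4) K) =
        AlgHom.id K _ := by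
      apply MvPolynomial.algHom_ext
      intro i
      simp [RatMap.subst]
    rw [this]
    exact Function.injective_id
  | succ n ih =>
    rw [AlgebraicIndependent] at ih ⊢
    have : (aeval (f.subst (n + 1)) : MvPolynomial (Fin 4) K →ₐ[K] MvPolynomial (Fin 4) K) =
        (aeval (f.subst n)).comp (aeval f.poly) := by
      apply MvPolynomial.algHom_ext
      intro i
      rw [AlgHom.comp_apply, aeval_X, aeval_X, RatMap.subst]
      rfl
    rw [this]
    exact ih.comp hf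

omit [CharZero K] in
/-- the iterates of a dominant map have positive degree -/
theorem iterate_pos {f g : RatMap K 3} (hf : f.Dominant) {n : ℕ} (hg : f.IsIterate n g) :
    0 < g.degree := by
  rw [Nat.pos_iff_ne_zero]
  intro h0
  obtain ⟨c, hc, h⟩ := hg
  have hconst : ∀ i, g.poly i = C (coeff 0 (g.poly i)) := by
    intro i
    apply totalDegree_eq_zero_iff_eq_C.mp
    have := (g.homogeneous i).totalDegree_le
    omega
  have hind := subst_indep hf n
  rw [algebraicIndependent_iff] at hind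
  have h1 := hind (C (coeff 0 (g.poly 0)) * X 1 - C (coeff 0 (g.poly 1)) * X 0) (by
    rw [map_sub, map_mul, map_mul, aeval_X, aeval_X, h 0, h 1, aeval_C, aeval_C]
    conv_lhs => rw [hconst 0, hconst 1]
    simp only [algebraMap_eq, coeff_C, if_true]
    ring)
  have h2 : coeff 0 (g.poly 0) = 0 := by
    have h3 := congrArg (aeval (![0, 1, 0, 0] : Fin 4 → K)) h1
    simpa using h3
  have h4 := hind (X 0) (by
    rw [aeval_X, h 0, hconst 0, h2]
    simp)
  exact X_ne_zero _ h4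

end Dominant

end Pool.Agent.H905R3.Quartic
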