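import Mathlib
import Pool.Agent.H905R3.GapDefs

set_option autoImplicit false

namespace Pool.Agent.H905R3.Gap

open MvPolynomial IntermediateField

section General

variable {M E : Type*} [Field M] [Field E] [Algebra M E]

theorem relfinrank_pow (x : E) (hx : Transcendental M x) (b : ℕ) :
    relfinrank M⟮x ^ b⟯ M⟮x⟯ = b := by
  let ψ : RatFunc M →ₐ[M] E := (M⟮x⟯).val.comp (RatFunc.algEquivOfTranscendental x hx).toAlgHom
  have hψ : ψ RatFunc.X = x := by
    simp [ψ]
  have h1 : (⊤ : IntermediateField M (RatFunc M)).map ψ = M⟮x⟯ := by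
    rw [← RatFunc.adjoin_X, IntermediateField.adjoin_map, Set.image_singleton, hψ]
  have h2 : (M⟮(RatFunc.X ^ b : RatFunc M)⟯).map ψ = M⟮x ^ b⟯ := by
    rw [IntermediateField.adjoin_map, Set.image_singleton, map_pow, hψ]
  rw [← h1, ← h2, relfinrank_map_map, relfinrank_top_right, RatFunc.finrank_eq_max_natDegree]
  have e : (RatFunc.X ^ b : RatFunc M) =
      algebraMap (Polynomial M) (RatFunc M) (Polynomial.X ^ b) := by
    rw [map_pow, RatFunc.algebraMap_X]
  rw [e, RatFunc.num_algebraMap, RatFunc.denom_algebraMap]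
  simp

end General

section Plane

variable (K : Type*) [Field K]

/-- the coordinate `x` -/
noncomputable def xx : FunField K 2 := algebraMap (MvPolynomial (Fin 2) K) _ (X 0)
/-- the coordinate `y` -/
noncomputable def yy : FunField K 2 := algebraMap (MvPolynomial (Fin 2) K) _ (X 1)

theorem inj : Function.Injective (algebraMap (MvPolynomial (Fin 2) K) (FunField K 2)) :=
  IsFractionRing.injective _ _

theorem xx_ne : xx K ≠ 0 := fun h => X_ne_zero (R := K) (0 : Fin 2) (inj K (by rw [map_zero]; exact h))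
theorem yy_ne : yy K ≠ 0 := fun h => X_ne_zero (R := K) (1 : Fin 2) (inj K (by rw [map_zero]; exact h))

theorem indep_xy : AlgebraicIndependent K ![xx K, yy K] := by
  rw [algebraicIndependent_iff_injective_aeval]
  have : (aeval ![xx K, yy K] : MvPolynomial (Fin 2) K →ₐ[K] FunField K 2) =
      IsScalarTower.toAlgHom K (MvPolynomial (Fin 2) K) (FunField K 2) := by
    apply MvPolynomial.algHom_ext
    intro i
    fin_cases i <;> simp [xx, yy]
  rw [this]
  exact inj K

/-- `x` is transcendental over `K[y]` -/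
theorem trans_x : Transcendental (Algebra.adjoin K {yy K}) (xx K) := by
  have h := ((AlgebraicIndependent.iff_transcendental_adjoin_image (0 : Fin 2)).mp (indep_xy K)).2
  have e : ![xx K, yy K] '' {0}ᶜ = {yy K} := by
    ext z
    simp only [Set.mem_image, Set.mem_compl_iff, Set.mem_singleton_iff, Fin.exists_fin_two]
    simp [eq_comm]
  rw [e] at h
  simpa using h

theorem trans_y : Transcendental K (yy K) := by
  have := (indep_xy K).transcendental 1
  simpa using this

open scoped IntermediateField.algebraAdjoinAdjoin in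
/-- `x` is transcendental over `K(y)` -/
theorem trans_x' : Transcendental K⟮yy K⟯ (xx K) := by
  intro h
  apply trans_x K
  exact (IsFractionRing.isAlgebraic_iff (Algebra.adjoin K {yy K}) K⟮yy K⟯ (FunField K 2)).mpr h

variable (b : ℕ)

theorem indep_Φ (hb : 0 < b) : AlgebraicIndependent K ![yy K, yy K ^ (b + 2) / xx K ^ b] := by
  rw [AlgebraicIndependent.iff_transcendental_adjoin_image (1 : Fin 2)]
  constructor
  · have : Unique {j : Fin 2 // j ≠ 1} := ⟨⟨⟨0, by decide⟩⟩, fun ⟨j, hj⟩ => by
      fin_cases j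
      · rfl
      · exact absurd rfl hj⟩
    rw [algebraicIndependent_unique_type_iff]
    have : ((default : {j : Fin 2 // j ≠ 1}) : Fin 2) = 0 := by
      have h := (default : {j : Fin 2 // j ≠ 1}).2
      generalize (default : {j : Fin 2 // j ≠ 1}) = j at h ⊢
      obtain ⟨j, hj⟩ := j
      fin_cases j
      · rfl
      · exact absurd rfl hj
    rw [this]
    exact trans_y K
  · have e : ![yy K, yy K ^ (b + 2) / xx K ^ b] '' {1}ᶜ = {yy K} := by
      ext z
      simp only [Set.mem_image, Set.mem_compl_iff, Set.mem_singleton_iff, Fin.exists_fin_two]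
      simp [eq_comm]
    rw [e]
    intro h
    apply trans_x K
    have hy : IsAlgebraic (Algebra.adjoin K {yy K}) (yy K ^ (b + 2)) := by
      have : IsAlgebraic (Algebra.adjoin K {yy K}) (yy K) :=
        isAlgebraic_algebraMap (⟨yy K, Algebra.subset_adjoin rfl⟩ : Algebra.adjoin K {yy K})
      exact this.pow _
    have h2 : IsAlgebraic (Algebra.adjoin K {yy K}) (xx K ^ b) := by
      have h3 := hy.mul h.inv
      have e2 : yy K ^ (b + 2) * (![yy K, yy K ^ (b + 2) / xx K ^ b] 1)⁻¹ = xx K ^ b := by
        have h4 := xx_ne K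
        have h5 := yy_ne K
        simp only [Matrix.cons_val_one, Matrix.cons_val_fin_one]
        field_simp
      rwa [e2] at h3
    exact h2.of_pow hb

theorem Φ_inj (hb : 0 < b) : Function.Injective
    (aeval ![yy K, yy K ^ (b + 2) / xx K ^ b] : MvPolynomial (Fin 2) K →ₐ[K] FunField K 2) :=
  algebraicIndependent_iff_injective_aeval.1 (indep_Φ K b hb)

/-- the pullback on the function field -/
noncomputable def Φ (hb : 0 < b) : FunField K 2 →ₐ[K] FunField K 2 :=
  IsFractionRing.liftAlgHom (Φ_inj K b hb)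

theorem Φ_alg (hb : 0 < b) (p : MvPolynomial (Fin 2) K) :
    Φ K b hb (algebraMap (MvPolynomial (Fin 2) K) _ p) =
      aeval ![yy K, yy K ^ (b + 2) / xx K ^ b] p := by
  rw [Φ, IsFractionRing.liftAlgHom_apply]
  exact IsFractionRing.lift_algebraMap _ _

theorem Φ_x (hb : 0 < b) : Φ K b hb (xx K) = yy K := by
  rw [xx, Φ_alg, aeval_X]
  rfl

theorem Φ_y (hb : 0 < b) : Φ K b hb (yy K) = yy K ^ (b + 2) / xx K ^ b := by
  have : Φ K b hb (yy K) = Φ K b hb (algebraMap (MvPolynomial (Fin 2) K) _ (X 1)) := rfl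
  rw [this, Φ_alg, aeval_X]
  rfl

/-- the coordinates of the iterates -/
noncomputable def W : ℕ → FunField K 2
  | 0 => xx K
  | 1 => yy K
  | (n + 2) => W (n + 1) ^ (b + 2) / W n ^ b

theorem Φ_W (hb : 0 < b) (n : ℕ) : Φ K b hb (W K b n) = W K b (n + 1) ∧
    Φ K b hb (W K b (n + 1)) = W K b (n + 2) := by
  induction n with
  | zero => exact ⟨Φ_x K b hb, by rw [W, Φ_y]; simp [W]⟩
  | succ n ih =>
    refine ⟨ih.2, ?_⟩
    rw [W, map_div₀, map_pow, map_pow, ih.1, ih.2]
    rfl

/-- the fields of definition of the iterates -/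
noncomputable def Fn (n : ℕ) : IntermediateField K (FunField K 2) := K⟮W K b (n + 1), W K b n⟯

theorem Fn_zero : Fn K b 0 = ⊤ := by
  rw [eq_top_iff]
  intro z _
  obtain ⟨p, q, hq, rfl⟩ := IsFractionRing.div_surjective (A := MvPolynomial (Fin 2) K) z
  have key : ∀ p : MvPolynomial (Fin 2) K, algebraMap _ (FunField K 2) p ∈ Fn K b 0 := by
    intro p
    induction p using MvPolynomial.induction_on with
    | C a =>
      rw [← MvPolynomial.algebraMap_eq, ← IsScalarTower.algebraMap_apply]
      exact IntermediateField.algebraMap_mem _ _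
    | add p q hp hq => rw [map_add]; exact add_mem hp hq
    | mul_X p i hp =>
      rw [map_mul]
      refine mul_mem hp ?_
      fin_cases i
      · exact IntermediateField.subset_adjoin K _ (by simp [W, xx])
      · exact IntermediateField.subset_adjoin K _ (by simp [W, yy])
  exact div_mem (key p) (key q)

theorem Fn_map (hb : 0 < b) (n : ℕ) : (Fn K b n).map (Φ K b hb) = Fn K b (n + 1) := by
  rw [Fn, IntermediateField.adjoin_map, Set.image_pair, (Φ_W K b hb n).1, (Φ_W K b hb n).2]
  rfl

theorem Fn_one : Fn K b 1 = K⟮yy K, xx K ^ b⟯ := by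
  apply le_antisymm
  · rw [Fn, IntermediateField.adjoin_le_iff]
    rintro z (rfl | rfl)
    · have h1 : yy K ∈ K⟮yy K, xx K ^ b⟯ := IntermediateField.subset_adjoin K _ (by simp)
      have h2 : xx K ^ b ∈ K⟮yy K, xx K ^ b⟯ := IntermediateField.subset_adjoin K _ (by simp)
      exact div_mem (pow_mem h1 _) h2
    · exact IntermediateField.subset_adjoin K _ (by simp [W])
  · rw [IntermediateField.adjoin_le_iff]
    have h1 : yy K ∈ Fn K b 1 := IntermediateField.subset_adjoin K _ (by simp [W])
    have h2 : yy K ^ (b + 2) / xx K ^ b ∈ Fn K b 1 :=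
      IntermediateField.subset_adjoin K _ (by simp [W])
    rintro z (rfl | rfl)
    · exact h1
    · have h3 := div_mem (pow_mem h1 (b + 2)) h2
      have h4 := xx_ne K
      have h5 := yy_ne K
      have e : yy K ^ (b + 2) / (yy K ^ (b + 2) / xx K ^ b) = xx K ^ b := by field_simp
      rwa [e] at h3

theorem rel_one : relfinrank (Fn K b 1) ⊤ = b := by
  have h := relfinrank_pow (M := K⟮yy K⟯) (xx K) (trans_x' K) b
  have e1 : (K⟮yy K⟯⟮xx K ^ b⟯).restrictScalars K = Fn K b 1 := by
    rw [IntermediateField.adjoin_simple_adjoin_simple, Fn_one]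
  have e2 : (K⟮yy K⟯⟮xx K⟯).restrictScalars K = ⊤ := by
    rw [IntermediateField.adjoin_simple_adjoin_simple, ← Fn_zero K b]
    rfl
  rw [← e1, ← e2]
  exact h

theorem rel_n (hb : 0 < b) (n : ℕ) : relfinrank (Fn K b n) ⊤ = b ^ n := by
  induction n with
  | zero => rw [Fn_zero, relfinrank_self, pow_zero]
  | succ n ih =>
    have h1 : relfinrank (Fn K b (n + 1)) (Fn K b 1) = b ^ n := by
      have e : (⊤ : IntermediateField K (FunField K 2)).map (Φ K b hb) = Fn K b 1 := by
        rw [← Fn_zero K b, Fn_map]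
      rw [← Fn_map K b hb n, ← e, relfinrank_map_map, ih]
    have h2 : Fn K b (n + 1) ≤ Fn K b 1 := by
      have e : (⊤ : IntermediateField K (FunField K 2)).map (Φ K b hb) = Fn K b 1 := by
        rw [← Fn_zero K b, Fn_map]
      rw [← Fn_map K b hb n, ← e]
      exact IntermediateField.map_mono _ le_top
    rw [← relfinrank_mul_relfinrank h2 le_top, h1, rel_one, pow_succ]

end Plane

end Pool.Agent.H905R3.Gap
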