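import Mathlib
import Pool.Agent.H905R3.GapField

set_option autoImplicit false

namespace Pool.Agent.H905R3.Gap

open MvPolynomial

variable (K : Type*) [Field K] (c : ℕ)

/-- exponents -/
def uw : ℕ → ℕ × ℕ
  | 0 => (0, 1)
  | (n + 1) => ((uw n).2 + (c + 2) * (uw n).1, 2 * (uw n).2 + (c + 2) * (uw n).1)

/-- exponents -/
def u (n : ℕ) : ℕ := (uw c n).1
/-- exponents -/
def w (n : ℕ) : ℕ := (uw c n).2
/-- exponents -/
def e (n : ℕ) : ℕ := w c n + c * u c n

theorem u_zero : u c 0 = 0 := rfl
theorem w_zero : w c 0 = 1 := rfl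
theorem u_succ (n : ℕ) : u c (n + 1) = w c n + (c + 2) * u c n := rfl
theorem w_succ (n : ℕ) : w c (n + 1) = 2 * w c n + (c + 2) * u c n := rfl

/-- the monomial tuple -/
noncomputable def mono (n : ℕ) : Fin 3 → MvPolynomial (Fin 3) K :=
  ![X 0 ^ w c n * X 1 ^ ((c + 2) * u c n), X 0 ^ u c n * X 1 ^ e c n * X 2 ^ u c n,
    X 2 ^ u c (n + 1)]

theorem hX (i : Fin 3) (k : ℕ) : (X i ^ k : MvPolynomial (Fin 3) K).IsHomogeneous k := by
  simpa using (isHomogeneous_X K i).pow k

theorem mono_hom (n : ℕ) (i : Fin 3) : (mono K c n i).IsHomogeneous (u c (n + 1)) := by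
  fin_cases i
  · have := (hX K 0 (w c n)).mul (hX K 1 ((c + 2) * u c n))
    rwa [← u_succ] at this
  · have := ((hX K 0 (u c n)).mul (hX K 1 (e c n))).mul (hX K 2 (u c n))
    have h2 : u c n + e c n + u c n = u c (n + 1) := by rw [e, u_succ]; ring
    rwa [h2] at this
  · exact hX K 2 _

theorem reduced_aux (p : MvPolynomial (Fin 3) K) (k l m : ℕ)
    (h0 : p ∣ X 2 ^ k) (h1 : p ∣ X 0 ^ l * X 1 ^ m) : IsUnit p := by
  have hprime : Prime (X 2 : MvPolynomial (Fin 3) K) := MvPolynomial.X_prime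
  obtain ⟨j, hj, hass⟩ := (dvd_prime_pow hprime k).1 h0
  rcases Nat.eq_zero_or_pos j with rfl | hpos
  · rw [pow_zero] at hass
    exact (associated_one_iff_isUnit).1 hass
  · exfalso
    have hX : (X 2 : MvPolynomial (Fin 3) K) ∣ X 0 ^ l * X 1 ^ m :=
      ((dvd_pow_self _ hpos.ne').trans hass.symm.dvd).trans h1
    obtain ⟨s, hs⟩ := hX
    have := congrArg (aeval (![1, 1, 0] : Fin 3 → K)) hs
    simp at this

/-- the iterates in reduced form -/
noncomputable def g (n : ℕ) : RatMap K 2 where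
  poly := mono K c n
  degree := u c (n + 1)
  homogeneous := mono_hom K c n
  reduced := fun p hp => reduced_aux K p _ _ _ (hp 2) (hp 0)

/-- The monomial map `(x, y) ↦ (y, y^(c+4) / x^(c+2))` of the plane. -/
noncomputable def f : RatMap K 2 where
  poly := ![X 0 ^ 2 * X 1 ^ (c + 2), X 0 * X 1 ^ (c + 2) * X 2, X 2 ^ (c + 4)]
  degree := c + 4
  homogeneous := fun i => by
    fin_cases i
    · have := (hX K 0 2).mul (hX K 1 (c + 2))
      rwa [show 2 + (c + 2) = c + 4 by ring] at this
    · have := ((hX K 0 1).mul (hX K 1 (c + 2))).mul (hX K 2 1)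
      rwa [pow_one, pow_one, show 1 + (c + 2) + 1 = c + 4 by ring] at this
    · exact hX K 2 (c + 4)
  reduced := fun p hp => reduced_aux K p _ _ _ (hp 2) (hp 0)

/-- the exponent of the common factor -/
def kk : ℕ → ℕ
  | 0 => 0
  | (n + 1) => (c + 4) * kk n + (c + 2) * u c n

theorem f0 : (f K c).poly 0 = X 0 ^ 2 * X 1 ^ (c + 2) := rfl
theorem f1 : (f K c).poly 1 = X 0 * X 1 ^ (c + 2) * X 2 := rfl
theorem f2 : (f K c).poly 2 = X 2 ^ (c + 4) := rfl
theorem m0 (n : ℕ) : mono K c n 0 = X 0 ^ w c n * X 1 ^ ((c + 2) * u c n) := rfl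
theorem m1 (n : ℕ) : mono K c n 1 = X 0 ^ u c n * X 1 ^ e c n * X 2 ^ u c n := rfl
theorem m2 (n : ℕ) : mono K c n 2 = X 2 ^ u c (n + 1) := rfl

theorem subst_eq (n : ℕ) (i : Fin 3) : (f K c).subst n i = X 2 ^ kk c n * mono K c n i := by
  induction n generalizing i with
  | zero =>
    fin_cases i <;> simp [RatMap.subst, kk, mono, u_zero, w_zero, e, u_succ]
  | succ n ih =>
    rw [RatMap.subst]
    have ih0 := ih 0
    have ih1 := ih 1
    have ih2 := ih 2
    rw [m0] at ih0
    rw [m1] at ih1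
    rw [m2] at ih2
    fin_cases i
    · change bind₁ ((f K c).subst n) ((f K c).poly 0) = _ * mono K c (n + 1) 0
      rw [f0, m0, map_mul, map_pow, map_pow, bind₁_X_right, bind₁_X_right, ih0, ih1]
      simp only [kk, e, w_succ, u_succ]
      ring
    · change bind₁ ((f K c).subst n) ((f K c).poly 1) = _ * mono K c (n + 1) 1
      rw [f1, m1, map_mul, map_mul, map_pow, bind₁_X_right, bind₁_X_right, bind₁_X_right,
        ih0, ih1, ih2]
      simp only [kk, e, w_succ, u_succ]
      ring
    · change bind₁ ((f K c).subst n) ((f K c).poly 2) = _ * mono K c (n + 1) 2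
      rw [f2, m2, map_pow, bind₁_X_right, ih2]
      simp only [kk, w_succ, u_succ]
      ring

theorem alg1 {L : Type*} [Field L] {a t : L} (ha : a ≠ 0) : a ^ 2 * (t / a ^ 2) = t := by
  field_simp

theorem alg2 {L : Type*} [Field L] {t s z : L} (ht : t ≠ 0) (hs : s ≠ 0) (hz : z ≠ 0) :
    (t / s * z) * (t / (t / s * z) ^ 2) * z = s := by
  field_simp

theorem isIterate (n : ℕ) : (f K c).IsIterate n (g K c n) :=
  ⟨X 2 ^ kk c n, pow_ne_zero _ (X_ne_zero _), fun i => subst_eq K c n i⟩

/-- the map is dominant -/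
theorem dominant : (f K c).Dominant := by
  unfold RatMap.Dominant
  rw [algebraicIndependent_iff]
  intro P hP
  let L := AlgebraicClosure (FractionRing (MvPolynomial (Fin 3) K))
  let T : Fin 3 → L := fun i => algebraMap (MvPolynomial (Fin 3) K) L (X i)
  have hinj : Function.Injective (algebraMap (MvPolynomial (Fin 3) K) L) := by
    have h1 : Function.Injective (algebraMap (MvPolynomial (Fin 3) K)
      (FractionRing (MvPolynomial (Fin 3) K))) := IsFractionRing.injective _ _
    have h2 : Function.Injective (algebraMap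
      (FractionRing (MvPolynomial (Fin 3) K)) L) := RingHom.injective _
    rw [IsScalarTower.algebraMap_eq (MvPolynomial (Fin 3) K)
      (FractionRing (MvPolynomial (Fin 3) K)) L]
    exact h2.comp h1
  have hT : ∀ i, T i ≠ 0 := by
    intro i h
    have hX : (X i : MvPolynomial (Fin 3) K) ≠ 0 := X_ne_zero i
    exact hX (hinj (by rw [map_zero]; exact h))
  obtain ⟨z, hz⟩ := IsAlgClosed.exists_pow_nat_eq (T 2) (n := c + 4) (by omega)
  have zne : z ≠ 0 := by
    rintro rfl
    rw [zero_pow (by omega)] at hz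
    exact hT 2 hz.symm
  let x0 : L := T 0 / T 1 * z
  have x0ne : x0 ≠ 0 := mul_ne_zero (div_ne_zero (hT _) (hT _)) zne
  obtain ⟨x1, hx1⟩ := IsAlgClosed.exists_pow_nat_eq (T 0 / x0 ^ 2) (n := c + 2) (by omega)
  let pt : Fin 3 → L := ![x0, x1, z]
  have hpt : ∀ i, aeval pt ((f K c).poly i) = T i := by
    intro i
    fin_cases i
    · change aeval pt ((f K c).poly 0) = T 0
      rw [f0, map_mul, map_pow, map_pow, aeval_X, aeval_X]
      change x0 ^ 2 * x1 ^ (c + 2) = T 0
      rw [hx1]
      exact alg1 x0ne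
    · change aeval pt ((f K c).poly 1) = T 1
      rw [f1, map_mul, map_mul, map_pow, aeval_X, aeval_X, aeval_X]
      change x0 * x1 ^ (c + 2) * z = T 1
      rw [hx1]
      exact alg2 (hT 0) (hT 1) zne
    · change aeval pt ((f K c).poly 2) = T 2
      rw [f2, map_pow, aeval_X]
      exact hz
  have h1 : aeval pt (aeval (f K c).poly P) = algebraMap (MvPolynomial (Fin 3) K) L P := by
    have hcomp : ((aeval pt).comp (aeval (f K c).poly) : MvPolynomial (Fin 3) K →ₐ[K] L) =
        IsScalarTower.toAlgHom K (MvPolynomial (Fin 3) K) L := by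
      apply MvPolynomial.algHom_ext
      intro i
      simp only [AlgHom.comp_apply, aeval_X]
      rw [hpt i]
      rfl
    exact DFunLike.congr_fun hcomp P
  apply hinj
  rw [← h1]
  have : aeval (f K c).poly P = 0 := hP
  rw [this, map_zero, map_zero]

/-! ### the topological degree of the iterates -/

theorem W_eq (n : ℕ) : W K (c + 2) n * xx K ^ ((c + 2) * u c n) =
      xx K ^ e c n * yy K ^ u c n ∧
    W K (c + 2) (n + 1) * xx K ^ ((c + 2) * u c n) = yy K ^ u c (n + 1) := by
  have hx := xx_ne K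
  have hy := yy_ne K
  induction n with
  | zero => constructor <;> simp [W, u_zero, w_zero, e, u_succ]
  | succ n ih =>
    obtain ⟨h1, h2⟩ := ih
    have e1 : W K (c + 2) n = xx K ^ e c n * yy K ^ u c n / xx K ^ ((c + 2) * u c n) := by
      rw [← h1]; field_simp
    have e2 : W K (c + 2) (n + 1) = yy K ^ u c (n + 1) / xx K ^ ((c + 2) * u c n) := by
      rw [← h2]; field_simp
    constructor
    · rw [e2]
      have h3 : xx K ^ ((c + 2) * u c (n + 1)) = xx K ^ ((c + 2) * u c n) * xx K ^ e c (n + 1) := by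
        rw [← pow_add]
        congr 1
        simp only [e, w_succ, u_succ]
        ring
      rw [h3]
      field_simp
    · rw [W, e1, e2]
      have h3 : yy K ^ u c (n + 1 + 1) * yy K ^ (u c n * (c + 2)) =
          yy K ^ (u c (n + 1) * (c + 2 + 2)) := by
        rw [← pow_add]
        congr 1
        simp only [w_succ, u_succ]
        ring
      have h4 : xx K ^ ((c + 2) * u c (n + 1)) * xx K ^ ((c + 2) * u c n * (c + 2)) =
          xx K ^ (e c n * (c + 2)) * xx K ^ ((c + 2) * u c n * (c + 2 + 2)) := by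
        rw [← pow_add, ← pow_add]
        congr 1
        simp only [e, w_succ, u_succ]
        ring
      rw [div_pow, div_pow, mul_pow, ← pow_mul, ← pow_mul, ← pow_mul, ← pow_mul]
      rw [div_div_div_eq, div_mul_eq_mul_div, div_eq_iff (by positivity)]
      rw [← h3]
      linear_combination (yy K ^ u c (n + 1 + 1) * yy K ^ (u c n * (c + 2))) * h4

end Pool.Agent.H905R3.Gap
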