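import Mathlib
import Pool.Agent.H905R3.GapMap

set_option autoImplicit false

namespace Pool.Agent.H905R3.Gap

open MvPolynomial IntermediateField Filter Topology

variable (K : Type*) [Field K] (c : ℕ)

theorem coord0 (n : ℕ) : (g K c n).coord 0 = xx K ^ ((c + 2) * u c n) := by
  have : (g K c n).poly 0 = X 0 ^ w c n * X 1 ^ ((c + 2) * u c n) := rfl
  rw [RatMap.coord, this, map_mul, map_pow, map_pow, aeval_X, aeval_X]
  simp only [Fin.cons_zero, one_pow, one_mul, map_pow]
  rfl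

theorem coord1 (n : ℕ) : (g K c n).coord 1 = xx K ^ e c n * yy K ^ u c n := by
  have : (g K c n).poly 1 = X 0 ^ u c n * X 1 ^ e c n * X 2 ^ u c n := rfl
  rw [RatMap.coord, this]
  simp only [map_mul, map_pow, aeval_X, Fin.cons_zero, map_one, one_pow, one_mul]
  rfl

theorem coord2 (n : ℕ) : (g K c n).coord 2 = yy K ^ u c (n + 1) := by
  have : (g K c n).poly 2 = X 2 ^ u c (n + 1) := rfl
  rw [RatMap.coord, this, map_pow, aeval_X, map_pow]
  rfl

theorem coord_eq (n : ℕ) (i : Fin 3) : (g K c n).coord i =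
    ![1, W K (c + 2) n, W K (c + 2) (n + 1)] i * (g K c n).coord 0 := by
  obtain ⟨h1, h2⟩ := W_eq K c n
  fin_cases i
  · simp
  · change (g K c n).coord 1 = W K (c + 2) n * (g K c n).coord 0
    rw [coord1, coord0, h1]
  · change (g K c n).coord 2 = W K (c + 2) (n + 1) * (g K c n).coord 0
    rw [coord2, coord0, h2]

theorem coord0_ne (n : ℕ) : (g K c n).coord 0 ≠ 0 := by
  rw [coord0]; exact pow_ne_zero _ (xx_ne K)

theorem pullbackField_eq (n : ℕ) : (g K c n).pullbackField = Fn K (c + 2) n := by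
  have h0 := coord0_ne K c n
  have hW1 : W K (c + 2) n ∈ Fn K (c + 2) n := subset_adjoin K _ (by simp)
  have hW2 : W K (c + 2) (n + 1) ∈ Fn K (c + 2) n := subset_adjoin K _ (by simp)
  have hr : ∀ i, ![1, W K (c + 2) n, W K (c + 2) (n + 1)] i ∈ Fn K (c + 2) n := by
    intro i
    fin_cases i
    · exact one_mem _
    · exact hW1
    · exact hW2
  have hq : ∀ i : Fin 3, (g K c n).coord i / (g K c n).coord 0 =
      ![1, W K (c + 2) n, W K (c + 2) (n + 1)] i := by
    intro i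
    rw [coord_eq K c n i, mul_div_assoc, div_self h0, mul_one]
  apply le_antisymm
  · rw [RatMap.pullbackField, adjoin_le_iff]
    rintro z ⟨i, j, rfl⟩
    rw [coord_eq K c n i, coord_eq K c n j, mul_div_mul_right _ _ h0]
    exact div_mem (hr i) (hr j)
  · rw [Fn, adjoin_le_iff]
    rintro z (rfl | rfl)
    · exact subset_adjoin K _ ⟨2, 0, (hq 2).symm⟩
    · exact subset_adjoin K _ ⟨1, 0, (hq 1).symm⟩

theorem topDegree_eq (n : ℕ) : (g K c n).topDegree = (c + 2) ^ n := by
  rw [RatMap.topDegree, pullbackField_eq, ← relfinrank_top_right, rel_n K (c + 2) (by omega)]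

/-! ### growth -/

/-- the smaller root of `z^2 - (c + 4) z + (c + 2)` -/
noncomputable def bet : ℝ := ((c + 4 : ℝ) - Real.sqrt ((c + 2 : ℝ) ^ 2 + 4)) / 2
/-- the larger root -/
noncomputable def alp : ℝ := ((c + 4 : ℝ) + Real.sqrt ((c + 2 : ℝ) ^ 2 + 4)) / 2

theorem sq_sqrt : Real.sqrt ((c + 2 : ℝ) ^ 2 + 4) ^ 2 = (c + 2 : ℝ) ^ 2 + 4 :=
  Real.sq_sqrt (by positivity)

theorem alp_add : alp c + bet c = c + 4 := by rw [alp, bet]; ring
theorem alp_mul : alp c * bet c = c + 2 := by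
  have := sq_sqrt c
  rw [alp, bet]
  linear_combination (-1 / 4) * this

theorem sqrt_gt : (c + 2 : ℝ) < Real.sqrt ((c + 2 : ℝ) ^ 2 + 4) := by
  apply Real.lt_sqrt_of_sq_lt
  linarith

theorem bet_lt_one : bet c < 1 := by
  have := sqrt_gt c
  rw [bet]; linarith

theorem alp_gt : (c + 3 : ℝ) < alp c := by
  have := bet_lt_one c
  have := alp_add c
  linarith

theorem bet_pos : 0 < bet c := by
  have h1 := alp_mul c
  have h2 := alp_gt c
  have h3 : (0 : ℝ) ≤ c := Nat.cast_nonneg c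
  by_contra h
  push Not at h
  have : alp c * bet c ≤ 0 := mul_nonpos_of_nonneg_of_nonpos (by linarith) h
  linarith

theorem one_sub_bet : (1 - bet c) * (alp c - 1) = 1 := by
  have h1 := alp_mul c
  have h2 := alp_add c
  linear_combination h2 - h1

theorem u_closed (n : ℕ) : (alp c - bet c) * (u c n : ℝ) = alp c ^ n - bet c ^ n ∧
    (alp c - bet c) * (u c (n + 1) : ℝ) = alp c ^ (n + 1) - bet c ^ (n + 1) := by
  induction n with
  | zero => simp [u_zero, u_succ, w_zero]
  | succ n ih =>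
    refine ⟨ih.2, ?_⟩
    have hrec : (u c (n + 1 + 1) : ℝ) = (c + 4) * u c (n + 1) - (c + 2) * u c n := by
      have e1 : u c (n + 1 + 1) = w c (n + 1) + (c + 2) * u c (n + 1) := rfl
      have e2 : w c (n + 1) = 2 * w c n + (c + 2) * u c n := rfl
      have e3 : u c (n + 1) = w c n + (c + 2) * u c n := rfl
      rw [e1, e2, e3]
      push_cast
      ring
    rw [hrec, ← alp_add, ← alp_mul]
    obtain ⟨h1, h2⟩ := ih
    linear_combination (alp c + bet c) * h2 - alp c * bet c * h1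

theorem u_lower (n : ℕ) : alp c ^ n ≤ u c (n + 1) := by
  have h := (u_closed c n).2
  have hb := bet_pos c
  have hb1 := bet_lt_one c
  have ha := alp_gt c
  have hc : (0 : ℝ) ≤ c := Nat.cast_nonneg c
  have hd : 0 < alp c - bet c := by linarith
  have hle : bet c ^ n ≤ alp c ^ n := pow_le_pow_left₀ hb.le (by linarith) n
  have h2 : (alp c - bet c) * alp c ^ n ≤ (alp c - bet c) * u c (n + 1) := by
    rw [h, pow_succ, pow_succ]
    nlinarith
  exact le_of_mul_le_mul_left h2 hd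

theorem u_upper (n : ℕ) : (u c (n + 1) : ℝ) ≤ alp c / (alp c - bet c) * alp c ^ n := by
  have h := (u_closed c n).2
  have hb := bet_pos c
  have hb1 := bet_lt_one c
  have ha := alp_gt c
  have hc : (0 : ℝ) ≤ c := Nat.cast_nonneg c
  have hd : 0 < alp c - bet c := by linarith
  rw [div_mul_eq_mul_div, le_div_iff₀ hd, mul_comm, h, pow_succ]
  have := pow_pos hb (n + 1)
  linarith

theorem tendsto_root (D : ℕ → ℝ) (a C : ℝ) (ha : 0 < a) (hC : 0 < C)
    (h1 : ∀ n, a ^ n ≤ D n) (h2 : ∀ n, D n ≤ C * a ^ n) :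
    Tendsto (fun n : ℕ => D n ^ ((1 : ℝ) / n)) atTop (𝓝 a) := by
  have hz : Tendsto (fun n : ℕ => (1 : ℝ) / n) atTop (𝓝 0) := tendsto_one_div_atTop_nhds_zero_nat
  have hC1 : Tendsto (fun n : ℕ => C ^ ((1 : ℝ) / n) * a) atTop (𝓝 a) := by
    have h3 : Tendsto (fun n : ℕ => C ^ ((1 : ℝ) / n)) atTop (𝓝 (C ^ (0 : ℝ))) :=
      (Real.continuous_const_rpow hC.ne').continuousAt.tendsto.comp hz
    rw [Real.rpow_zero] at h3
    simpa using h3.mul_const a
  have hroot : ∀ n : ℕ, 1 ≤ n → (a ^ n) ^ ((1 : ℝ) / n) = a := by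
    intro n hn
    rw [← Real.rpow_natCast, ← Real.rpow_mul ha.le]
    have : (n : ℝ) ≠ 0 := by positivity
    rw [mul_one_div_cancel this, Real.rpow_one]
  refine tendsto_of_tendsto_of_tendsto_of_le_of_le' tendsto_const_nhds hC1 ?_ ?_
  · filter_upwards [eventually_ge_atTop 1] with n hn
    calc a = (a ^ n) ^ ((1 : ℝ) / n) := (hroot n hn).symm
      _ ≤ D n ^ ((1 : ℝ) / n) := Real.rpow_le_rpow (by positivity) (h1 n) (by positivity)
  · filter_upwards [eventually_ge_atTop 1] with n hn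
    calc D n ^ ((1 : ℝ) / n) ≤ (C * a ^ n) ^ ((1 : ℝ) / n) :=
          Real.rpow_le_rpow ((pow_pos ha n).le.trans (h1 n)) (h2 n) (by positivity)
      _ = C ^ ((1 : ℝ) / n) * a := by
          rw [Real.mul_rpow hC.le (by positivity), hroot n hn]

theorem dyn0 : (f K c).IsDynamicalDegree 0 1 := by
  refine ⟨g K c, isIterate K c, ?_⟩
  simp only [RatMap.deg, Matrix.cons_val_zero, Nat.cast_one, Real.one_rpow]
  exact tendsto_const_nhds

theorem dyn1 : (f K c).IsDynamicalDegree 1 (alp c) := by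
  refine ⟨g K c, isIterate K c, ?_⟩
  have ha := alp_gt c
  have hb1 := bet_lt_one c
  have hc : (0 : ℝ) ≤ c := Nat.cast_nonneg c
  exact tendsto_root (fun n => (u c (n + 1) : ℝ)) (alp c) (alp c / (alp c - bet c)) (by linarith)
    (div_pos (by linarith) (by linarith)) (u_lower c) (u_upper c)

theorem dyn2 : (f K c).IsDynamicalDegree 2 (c + 2) := by
  refine ⟨g K c, isIterate K c, ?_⟩
  have e : ∀ n, (((g K c n).deg 2 : ℕ) : ℝ) = (c + 2 : ℝ) ^ n := by
    intro n
    have : (g K c n).deg 2 = (g K c n).topDegree := rfl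
    rw [this, topDegree_eq]
    push_cast
    ring
  simp only [e]
  exact tendsto_root (fun n => (c + 2 : ℝ) ^ n) (c + 2) 1 (by positivity) one_pos
    (fun n => le_rfl) (fun n => by rw [one_mul])

/-- the dynamical degrees of `f` -/
theorem dyn (i : Fin 3) : (f K c).IsDynamicalDegree i (![1, alp c, c + 2] i) := by
  fin_cases i
  · exact dyn0 K c
  · exact dyn1 K c
  · exact dyn2 K c

theorem quot : (c + 2 : ℝ) / alp c = bet c := by
  have ha := alp_gt c
  have hc : (0 : ℝ) ≤ c := Nat.cast_nonneg c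
  have : alp c ≠ 0 := by linarith
  rw [div_eq_iff this, mul_comm, alp_mul]

theorem bet_near (μ : ℝ) (hμ : 1 < μ) : ∃ c : ℕ, μ⁻¹ < bet c := by
  have h0 : 0 < 1 - μ⁻¹ := by
    have := inv_lt_one_of_one_lt₀ hμ
    linarith
  obtain ⟨c, hc⟩ := exists_nat_gt (1 / (1 - μ⁻¹))
  refine ⟨c, ?_⟩
  have ha := alp_gt c
  have hcc : (0 : ℝ) ≤ c := Nat.cast_nonneg c
  have h1 := one_sub_bet c
  have h2 : 1 < (c : ℝ) * (1 - μ⁻¹) := by rwa [div_lt_iff₀ h0] at hc
  by_contra hcon
  push Not at hcon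
  have h3 : (1 - μ⁻¹) * (alp c - 1) ≤ (1 - bet c) * (alp c - 1) :=
    mul_le_mul_of_nonneg_right (by linarith) (by linarith)
  rw [h1] at h3
  nlinarith

end Pool.Agent.H905R3.Gap
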