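import Mathlib
import Pool.Agent.H905R3.Dom

/-!
The map, its iterates, and the growth of their degrees.
-/

set_option autoImplicit false

namespace Pool.Agent.H905R3.Quartic

open MvPolynomial Filter Topology

universe u

theorem root_limit (D : ℕ → ℝ) (C : ℝ) (j : ℕ) (hC : 0 < C) (h1 : ∀ n, 1 ≤ D n)
    (h2 : ∀ n, 1 ≤ n → D n ≤ C * (n : ℝ) ^ j) :
    Tendsto (fun n : ℕ => D n ^ ((1 : ℝ) / n)) atTop (𝓝 1) := by
  have hz : Tendsto (fun n : ℕ => (1 : ℝ) / n) atTop (𝓝 0) := tendsto_one_div_atTop_nhds_zero_nat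
  have h3 : Tendsto (fun n : ℕ => C ^ ((1 : ℝ) / n)) atTop (𝓝 1) := by
    have h4 : Tendsto (fun n : ℕ => C ^ ((1 : ℝ) / n)) atTop (𝓝 (C ^ (0 : ℝ))) :=
      (Real.continuous_const_rpow hC.ne').continuousAt.tendsto.comp hz
    rwa [Real.rpow_zero] at h4
  have h5 : Tendsto (fun n : ℕ => (n : ℝ) ^ ((1 : ℝ) / n)) atTop (𝓝 1) :=
    tendsto_rpow_div.comp tendsto_natCast_atTop_atTop
  have h6 : Tendsto (fun n : ℕ => C ^ ((1 : ℝ) / n) * ((n : ℝ) ^ ((1 : ℝ) / n)) ^ j) atTop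
      (𝓝 1) := by
    have := h3.mul (h5.pow j)
    simpa using this
  refine tendsto_of_tendsto_of_tendsto_of_le_of_le' tendsto_const_nhds h6 ?_ ?_
  · exact Eventually.of_forall fun n => Real.one_le_rpow (h1 n) (by positivity)
  · filter_upwards [eventually_ge_atTop 1] with n hn
    calc D n ^ ((1 : ℝ) / n) ≤ (C * (n : ℝ) ^ j) ^ ((1 : ℝ) / n) :=
          Real.rpow_le_rpow (zero_le_one.trans (h1 n)) (h2 n hn) (by positivity)
      _ = C ^ ((1 : ℝ) / n) * ((n : ℝ) ^ ((1 : ℝ) / n)) ^ j := by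
          rw [Real.mul_rpow hC.le (by positivity), ← Real.rpow_natCast, ← Real.rpow_natCast,
            ← Real.rpow_mul (by positivity), ← Real.rpow_mul (by positivity), mul_comm (j : ℝ)]

theorem exists_map (K : Type u) [Field K] [CharZero K] : ∃ f : RatMap K 3, f.Dominant ∧
    ∃ g : ℕ → RatMap K 3, (∀ n, f.IsIterate n (g n)) ∧ (∀ n, 1 ≤ (g n).degree) ∧
      (∃ C : ℕ, 0 < C ∧ ∀ n, 1 ≤ n → (g n).degree ≤ C * n ^ 18) ∧
      (∃ E : ℕ, 0 < E ∧ ∀ k, 1 ≤ k → 16 ^ k ≤ E * (g (2 ^ k - 1)).degree) := by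
  obtain ⟨f, hf⟩ := exists_f (K := K)
  obtain ⟨C, hC⟩ := upper_bound hf
  obtain ⟨E, hE, hlow⟩ := lower K hf
  have hex : ∀ n, ∃ g : RatMap K 3, f.IsIterate n g ∧ g.degree ≤ C * 512 ^ (2 * (Nat.log 2 n + 1)) :=
    fun n => hC n (Nat.log 2 n + 1) (Nat.lt_pow_succ_log_self (by norm_num) n)
  choose g hg hgd using hex
  have hf1 : f.IsIterate 1 f := ⟨1, one_ne_zero, fun i => by
    rw [one_mul]
    simp [RatMap.subst]⟩
  have hfd : 0 < f.degree := by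
    have := hlow 1 f le_rfl hf1
    rw [Nat.pos_iff_ne_zero]
    intro h0
    rw [h0] at this
    omega
  have hdom := dominant hf hfd
  refine ⟨f, hdom, g, hg, fun n => iterate_pos hdom (hg n), ?_, ?_⟩
  · refine ⟨C * 2 ^ 18 + 1, by omega, fun n hn => ?_⟩
    have h1 : 2 ^ (Nat.log 2 n + 1) ≤ 2 * n := by
      rw [pow_succ, mul_comm]
      exact Nat.mul_le_mul_left 2 (Nat.pow_log_le_self 2 (by omega))
    have h2 : 512 ^ (2 * (Nat.log 2 n + 1)) = (2 ^ (Nat.log 2 n + 1)) ^ 18 := by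
      rw [show 512 = 2 ^ 9 by norm_num, ← pow_mul, ← pow_mul]
      congr 1
      ring
    calc (g n).degree ≤ C * 512 ^ (2 * (Nat.log 2 n + 1)) := hgd n
      _ = C * (2 ^ (Nat.log 2 n + 1)) ^ 18 := by rw [h2]
      _ ≤ C * (2 * n) ^ 18 := Nat.mul_le_mul_left _ (Nat.pow_le_pow_left h1 18)
      _ = C * 2 ^ 18 * n ^ 18 := by rw [mul_pow]; ring
      _ ≤ (C * 2 ^ 18 + 1) * n ^ 18 := Nat.mul_le_mul_right _ (by omega)
  · exact ⟨4 * E, by omega, fun k hk => hlow k (g (2 ^ k - 1)) hk (hg _)⟩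

/-- the degrees do not grow like the `l`-th power, for `l ≤ 3` -/
theorem not_growth (d : ℕ → ℕ) (E : ℕ) (_hE : 0 < E)
    (h : ∀ k, 1 ≤ k → 16 ^ k ≤ E * d (2 ^ k - 1)) (l : ℕ) (hl : l ≤ 3) (c : ℝ) (hc : 0 < c)
    (c3 : ℝ) (hup : ∀ n : ℕ, c3 ≤ n → c * (d n : ℝ) ≤ (n : ℝ) ^ l) : False := by
  obtain ⟨a, ha⟩ := exists_nat_gt (max c3 (E / c))
  have ha1 : c3 < a := (le_max_left _ _).trans_lt ha
  have ha2 : E / c < a := (le_max_right _ _).trans_lt ha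
  set k := a + 1 with hk
  have hn : a < 2 ^ k - 1 := by
    have : k < 2 ^ k := Nat.lt_two_pow_self
    omega
  set n := 2 ^ k - 1 with hnd
  have hn1 : (a : ℝ) < n := by exact_mod_cast hn
  have h1 := hup n (by linarith)
  have h2 : (16 : ℝ) ^ k ≤ E * (d n : ℝ) := by exact_mod_cast h k (by omega)
  have h3 : (n : ℝ) ^ l ≤ (8 : ℝ) ^ k := by
    have hnat : n ^ l ≤ 8 ^ k := by
      calc n ^ l ≤ (2 ^ k) ^ l := Nat.pow_le_pow_left (by omega) l
        _ ≤ (2 ^ k) ^ 3 := Nat.pow_le_pow_right (Nat.one_le_two_pow) hl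
        _ = 8 ^ k := by rw [← pow_mul, mul_comm, pow_mul]; norm_num
    exact_mod_cast hnat
  have h4 : c * (16 : ℝ) ^ k ≤ E * (8 : ℝ) ^ k := by
    calc c * (16 : ℝ) ^ k ≤ c * (E * (d n : ℝ)) := mul_le_mul_of_nonneg_left h2 hc.le
      _ = E * (c * (d n : ℝ)) := by ring
      _ ≤ E * (8 : ℝ) ^ k := mul_le_mul_of_nonneg_left (h1.trans h3) (Nat.cast_nonneg E)
  have h5 : (16 : ℝ) ^ k = 2 ^ k * 8 ^ k := by rw [← mul_pow]; norm_num
  rw [h5] at h4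
  have h6 : c * 2 ^ k ≤ E := by
    have : (c * 2 ^ k) * (8 : ℝ) ^ k ≤ E * (8 : ℝ) ^ k := by linarith
    exact le_of_mul_le_mul_right this (by positivity)
  have h7 : (a : ℝ) < 2 ^ k := by
    have : (n : ℝ) ≤ 2 ^ k := by
      have : n ≤ 2 ^ k := by omega
      exact_mod_cast this
    linarith
  rw [div_lt_iff₀ hc] at ha2
  nlinarith

end Pool.Agent.H905R3.Quartic
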